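import Pool.Agent.P.MP_a3b544_ag.PC.Curve

/-! Plane sections are connected (winding number argument). -/

namespace Pool.Agent.P.MP_a3b544_ag.PC

open scoped ENNReal Topology Polynomial
open Set Filter

variable {F : MvPolynomial (Fin 3) ℂ} {d : ℕ}

/-- The point with coordinates `w.1, w.2, T` in a frame. -/
noncomputable def pt (e₀ e₁ e₂ : E3) (w : ℂ × ℂ) (T : ℂ) : E3 := w.1 • e₀ + w.2 • e₁ + T • e₂

lemma pt_smul (e₀ e₁ e₂ : E3) (c : ℂ) (w : ℂ × ℂ) (T : ℂ) :
    pt e₀ e₁ e₂ (c • w) (c * T) = c • pt e₀ e₁ e₂ w T := by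
  simp only [pt, Prod.smul_fst, Prod.smul_snd, smul_eq_mul, smul_add, smul_smul]

lemma tendsto_pt (e₀ e₁ e₂ : E3) {a : ℕ → ℂ × ℂ} {b : ℕ → ℂ} {a₀ : ℂ × ℂ} {b₀ : ℂ}
    (ha : Tendsto a atTop (𝓝 a₀)) (hb : Tendsto b atTop (𝓝 b₀)) :
    Tendsto (fun n => pt e₀ e₁ e₂ (a n) (b n)) atTop (𝓝 (pt e₀ e₁ e₂ a₀ b₀)) := by
  unfold pt
  exact ((ha.fst_nhds.smul_const e₀).add (ha.snd_nhds.smul_const e₁)).add (hb.smul_const e₂)

lemma perm_of_prod_eq {ρ ρ' : Fin d → ℂ} (h : ∀ T : ℂ, ∏ i, (T - ρ i) = ∏ i, (T - ρ' i)) :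
    Finset.univ.val.map ρ = Finset.univ.val.map ρ' := by
  have key : ∀ ρ : Fin d → ℂ, (∏ i, (Polynomial.X - Polynomial.C (ρ i))).roots =
      Finset.univ.val.map ρ := by
    intro ρ
    rw [← Polynomial.roots_multiset_prod_X_sub_C (Finset.univ.val.map ρ), Multiset.map_map]
    rfl
  rw [← key, ← key]
  congr 1
  apply Polynomial.funext
  intro T
  simpa [Polynomial.eval_prod] using h T

lemma no_nonvanishing_homogeneous (R : ℂ × ℂ → ℂ) (hR : ContinuousOn R {w | w ≠ 0})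
    (h0 : ∀ w, w ≠ 0 → R w ≠ 0) {e : ℕ} (he : e ≠ 0)
    (hom : ∀ (c : ℂ) w, c ≠ 0 → w ≠ 0 → R (c • w) = c ^ e * R w) : False := by
  have hlog : ∀ g : ℂ → ℂ, Continuous g → (∀ t, g t ≠ 0) →
      ∃ l : ℂ → ℂ, Continuous l ∧ ∀ t, Complex.exp (l t) = g t := by
    intro g hg hg0
    obtain ⟨l, ⟨-, hl⟩, -⟩ := Complex.isCoveringMapOn_exp.existsUnique_continuousMap_lifts
      ⟨g, hg⟩ (a₀ := 0) (e₀ := Complex.log (g 0)) (Complex.exp_log (hg0 0)) hg0
    exact ⟨l, l.continuous, fun t => congrFun hl t⟩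
  have n1 : ∀ t : ℂ, ((t, 1) : ℂ × ℂ) ≠ 0 := fun t h => one_ne_zero (congrArg Prod.snd h)
  have n2 : ∀ t : ℂ, ((1, t) : ℂ × ℂ) ≠ 0 := fun t h => one_ne_zero (congrArg Prod.fst h)
  obtain ⟨l₁, c₁, h₁⟩ := hlog (fun t => R (t, 1))
    (hR.comp_continuous (by fun_prop) n1) fun t => h0 _ (n1 t)
  obtain ⟨l₂, c₂, h₂⟩ := hlog (fun t => R (1, t))
    (hR.comp_continuous (by fun_prop) n2) fun t => h0 _ (n2 t)
  let k : ℝ → ℂ := fun θ => l₁ (Complex.exp (θ * Complex.I)) -
    l₂ (Complex.exp (-(θ * Complex.I))) - e * (θ * Complex.I)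
  have hk : Continuous k := by simp only [k]; fun_prop
  have hexp : ∀ θ, Complex.exp (k θ) = 1 := by
    intro θ
    simp only [k, Complex.exp_sub, h₁, h₂, Complex.exp_nat_mul]
    have : ((Complex.exp (θ * Complex.I), 1) : ℂ × ℂ) =
        Complex.exp (θ * Complex.I) • (1, Complex.exp (-(θ * Complex.I))) := by
      simp [← Complex.exp_add]
    rw [this, hom _ _ (Complex.exp_ne_zero _) (n2 _)]
    have a1 := h0 _ (n2 (Complex.exp (-(θ * Complex.I))))
    have a2 := Complex.exp_ne_zero (θ * Complex.I)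
    field_simp
  have := Complex.isCoveringMap_exp.const_of_comp hk
    (fun a a' => Subtype.ext ((hexp a).trans (hexp a').symm)) 0 (2 * Real.pi)
  simp only [k] at this
  push_cast at this
  rw [Complex.exp_neg (2 * Real.pi * Complex.I), Complex.exp_two_pi_mul_I] at this
  simp only [zero_mul, Complex.exp_zero, neg_zero, mul_zero, sub_zero, inv_one] at this
  have h3 : (e : ℂ) * (2 * Real.pi * Complex.I) = 0 := by linear_combination this
  simp [he] at h3

theorem exists_level (hd : 1 ≤ d) (hF : F.IsHomogeneous d) {e₀ e₁ e₂ : E3} (h₂ : ev F e₂ ≠ 0)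
    (hind : ∀ w T, w ≠ 0 → pt e₀ e₁ e₂ w T ≠ 0) {φ : E3 → ℝ≥0∞} (hφ : ContinuousOn φ (cone F))
    (hφs : ∀ (c : ℂ) z, c ≠ 0 → φ (c • z) = φ z) {s : ℝ≥0∞} {w₁ w₂ : ℂ × ℂ} {T₁ T₂ : ℂ}
    (m₁ : pt e₀ e₁ e₂ w₁ T₁ ∈ cone F) (m₂ : pt e₀ e₁ e₂ w₂ T₂ ∈ cone F)
    (s₁ : φ (pt e₀ e₁ e₂ w₁ T₁) < s) (s₂ : s ≤ φ (pt e₀ e₁ e₂ w₂ T₂)) :
    ∃ w T, pt e₀ e₁ e₂ w T ∈ cone F ∧ φ (pt e₀ e₁ e₂ w T) = s := by
  classical
  by_contra hcon
  push Not at hcon
  let IsR : ℂ × ℂ → (Fin d → ℂ) → Prop := fun w ρ =>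
    ∀ T, ev F (pt e₀ e₁ e₂ w T) = ev F e₂ * ∏ i, (T - ρ i)
  have hex : ∀ w, ∃ ρ, IsR w ρ := fun w => exists_roots hF _ h₂
  choose ρ hρ using hex
  have hroot : ∀ w r, w ≠ 0 → IsR w r → ∀ i, pt e₀ e₁ e₂ w (r i) ∈ cone F := by
    intro w r hw hr i
    refine ⟨hind w _ hw, ?_⟩
    change ev F _ = 0
    rw [hr, Finset.prod_eq_zero (Finset.mem_univ i) (sub_self _), mul_zero]
  have huniq : ∀ w r r', IsR w r → IsR w r' → Finset.univ.val.map r = Finset.univ.val.map r' :=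
    fun w r r' hr hr' => perm_of_prod_eq fun T =>
      mul_left_cancel₀ h₂ ((hr T).symm.trans (hr' T))
  let A : ℂ × ℂ → ℂ → Prop := fun w T => φ (pt e₀ e₁ e₂ w T) < s
  -- continuity of symmetric functions of the partitioned roots
  have hgen : ∀ (Y : Type) [TopologicalSpace Y] (Θ : (Fin d → Prop) → (Fin d → ℂ) → Y),
      (∀ b, Continuous (Θ b)) → ∀ Rf : ℂ × ℂ → Y,
      (∀ w r, w ≠ 0 → IsR w r → Rf w = Θ (fun i => A w (r i)) r) →
      ContinuousOn Rf {w | w ≠ 0} := by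
    intro Y _ Θ hΘ Rf hRf w₀ hw₀
    refine tendsto_of_subseq_tendsto fun ns hns => ?_
    rw [tendsto_nhdsWithin_iff] at hns
    obtain ⟨M, hM0, hM⟩ := exists_root_bound hF h₂
    obtain ⟨B, hB⟩ := (Metric.isBounded_range_of_tendsto
      (fun n => (ns n).1 • e₀ + (ns n).2 • e₁)
      (((show Continuous fun w : ℂ × ℂ => w.1 • e₀ + w.2 • e₁ by fun_prop).tendsto w₀).comp
        hns.1)).exists_norm_le
    have hB0 : 0 ≤ B := (norm_nonneg _).trans (hB _ (mem_range_self 0))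
    have hbd : ∀ n, ρ (ns n) ∈ Metric.closedBall (0 : Fin d → ℂ) (M * B) := by
      intro n
      rw [mem_closedBall_zero_iff, pi_norm_le_iff_of_nonneg (by positivity)]
      intro i
      refine (hM ((ns n).1 • e₀ + (ns n).2 • e₁) _ ?_).trans ?_
      · have := hρ (ns n) (ρ (ns n) i)
        rwa [Finset.prod_eq_zero (Finset.mem_univ i) (sub_self _), mul_zero] at this
      · gcongr; exact hB _ (mem_range_self n)
    obtain ⟨r₀, -, ms, hms, hlim⟩ := tendsto_subseq_of_bounded Metric.isBounded_closedBall hbd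
    refine ⟨ms, ?_⟩
    have t1 : Tendsto (fun n => ns (ms n)) atTop (𝓝 w₀) := hns.1.comp hms.tendsto_atTop
    have t0 : ∀ᶠ n in atTop, ns (ms n) ≠ 0 := hms.tendsto_atTop.eventually hns.2
    have t2 : ∀ i, Tendsto (fun n => ρ (ns (ms n)) i) atTop (𝓝 (r₀ i)) :=
      fun i => tendsto_pi_nhds.1 hlim i
    have hr₀ : IsR w₀ r₀ := by
      intro T
      have a1 : Tendsto (fun n => ev F (pt e₀ e₁ e₂ (ns (ms n)) T)) atTop
          (𝓝 (ev F (pt e₀ e₁ e₂ w₀ T))) :=
        ((continuous_ev F).tendsto _).comp (tendsto_pt _ _ _ t1 tendsto_const_nhds)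
      have a2 : Tendsto (fun n => ev F e₂ * ∏ i, (T - ρ (ns (ms n)) i)) atTop
          (𝓝 (ev F e₂ * ∏ i, (T - r₀ i))) :=
        (tendsto_finsetProd _ fun i _ => (t2 i).const_sub T).const_mul _
      exact tendsto_nhds_unique (a1.congr fun n => hρ _ T) a2
    have t3 : ∀ᶠ n in atTop, (fun i => A (ns (ms n)) (ρ (ns (ms n)) i)) = fun i => A w₀ (r₀ i) := by
      have : ∀ i, ∀ᶠ n in atTop, A (ns (ms n)) (ρ (ns (ms n)) i) = A w₀ (r₀ i) := by
        intro i
        have b1 : Tendsto (fun n => pt e₀ e₁ e₂ (ns (ms n)) (ρ (ns (ms n)) i)) atTop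
            (𝓝[cone F] (pt e₀ e₁ e₂ w₀ (r₀ i))) := by
          rw [tendsto_nhdsWithin_iff]
          refine ⟨tendsto_pt _ _ _ t1 (t2 i), ?_⟩
          filter_upwards [t0] with n hn using hroot _ _ hn (hρ _) i
        have b2 := (hφ _ (hroot w₀ r₀ hw₀ hr₀ i)).tendsto.comp b1
        rcases lt_or_gt_of_ne (hcon w₀ (r₀ i) (hroot w₀ r₀ hw₀ hr₀ i)) with h | h
        · filter_upwards [b2.eventually (gt_mem_nhds h)] with n hn
          exact propext ⟨fun _ => h, fun _ => hn⟩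
        · filter_upwards [b2.eventually (lt_mem_nhds h)] with n hn
          exact propext ⟨fun h' => absurd h' (not_lt.2 hn.le), fun h' => absurd h' (not_lt.2 h.le)⟩
      filter_upwards [eventually_all.2 this] with n hn
      exact funext hn
    rw [hRf w₀ r₀ hw₀ hr₀]
    refine Tendsto.congr' ?_ (((hΘ _).tendsto r₀).comp hlim)
    filter_upwards [t0, t3] with n h1 h2
    rw [hRf _ _ h1 (hρ _), h2]
    rfl
  -- the number of roots of the first kind is constant
  let m : ℂ × ℂ → ℕ := fun w => (Finset.univ.filter fun i => A w (ρ w i)).card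
  have hm : ∀ w r, IsR w r → m w = (Finset.univ.filter fun i => A w (r i)).card := by
    intro w r hr
    have key : ∀ r : Fin d → ℂ, (Finset.univ.filter fun i => A w (r i)).card =
        (Finset.univ.val.map r).countP (A w) := by
      intro r; rw [Multiset.countP_map]; rfl
    simp only [m]
    rw [key, key, huniq w _ _ (hρ w) hr]
  have hmc : ContinuousOn m {w | w ≠ 0} :=
    hgen ℕ (fun b _ => (Finset.univ.filter fun i => b i).card) (fun _ => continuous_const) m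
      fun w r _ hr => by rw [hm w r hr]; congr!
  have hconn : IsPreconnected {w : ℂ × ℂ | w ≠ 0} := by
    refine (isConnected_compl_singleton_of_one_lt_rank ?_ (0 : ℂ × ℂ)).isPreconnected
    rw [rank_prod', Complex.rank_real_complex]
    norm_num
  have hne : ∀ w T, pt e₀ e₁ e₂ w T ∈ cone F → w ≠ 0 ∧ ∃ i, ρ w i = T := by
    intro w T h
    constructor
    · rintro rfl
      have h1 : pt e₀ e₁ e₂ 0 T = T • e₂ := by simp [pt]
      have h2 := (mem_cone.1 h).2
      rw [h1, ev_smul hF, mul_eq_zero] at h2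
      apply h.1
      rw [h1, eq_zero_of_pow_eq_zero (h2.resolve_right h₂), zero_smul]
    · have h2 := (mem_cone.1 h).2
      rw [hρ, mul_eq_zero, Finset.prod_eq_zero_iff] at h2
      obtain ⟨i, -, hi⟩ := h2.resolve_left h₂
      exact ⟨i, (sub_eq_zero.1 hi).symm⟩
  obtain ⟨n₁, i₁, hi₁⟩ := hne _ _ m₁
  obtain ⟨n₂, i₂, hi₂⟩ := hne _ _ m₂
  have hm1 : m w₁ ≠ 0 := by
    refine Finset.card_ne_zero.2 ⟨i₁, ?_⟩
    simp only [Finset.mem_filter, Finset.mem_univ, true_and, A, hi₁]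
    exact s₁
  have hm2 : m w₂ < d := by
    have : (Finset.univ.filter fun i => A w₂ (ρ w₂ i)).card < (Finset.univ : Finset (Fin d)).card :=
      Finset.card_lt_card (Finset.filter_ssubset.2 ⟨i₂, Finset.mem_univ _, by
        simp only [A, hi₂]; exact not_lt.2 s₂⟩)
    simpa using this
  have hmw : ∀ w, w ≠ 0 → m w = m w₁ := fun w hw => hconn.constant hmc hw n₁
  -- the product of the differences
  let Θ : (Fin d → Prop) → (Fin d → ℂ) → ℂ := fun b r =>
    ∏ i ∈ Finset.univ.filter (fun i => b i), ∏ j ∈ Finset.univ.filter (fun j => ¬ b j), (r i - r j)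
  let R : ℂ × ℂ → ℂ := fun w => Θ (fun i => A w (ρ w i)) (ρ w)
  have hR : ∀ w r, IsR w r → R w = Θ (fun i => A w (r i)) r := by
    intro w r hr
    have key : ∀ r : Fin d → ℂ, Θ (fun i => A w (r i)) r =
        (((Finset.univ.val.map r).filter (A w)).map fun a =>
          (((Finset.univ.val.map r).filter (fun b => ¬ A w b)).map fun b => a - b).prod).prod := by
      intro r
      simp only [Multiset.filter_map, Multiset.map_map, Θ, Finset.prod, Finset.filter_val,
        Function.comp_def]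
    simp only [R]
    rw [key, key, huniq w _ _ (hρ w) hr]
  refine no_nonvanishing_homogeneous R
    (hgen ℂ Θ (fun b => by simp only [Θ]; fun_prop) R fun w r _ hr => hR w r hr)
    (fun w _ => ?_) (e := m w₁ * (d - m w₁))
    (mul_ne_zero hm1 (by rw [← hmw w₂ n₂]; omega)) fun c w hc hw => ?_
  · simp only [R, Θ]
    refine Finset.prod_ne_zero_iff.2 fun i hi => Finset.prod_ne_zero_iff.2 fun j hj h => ?_
    simp only [Finset.mem_filter, Finset.mem_univ, true_and] at hi hj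
    rw [sub_eq_zero] at h
    exact hj (h ▸ hi)
  · have hr : IsR (c • w) (fun i => c * ρ w i) := by
      intro T
      have : T = c * (c⁻¹ * T) := by field_simp
      rw [this, pt_smul, ev_smul hF, hρ]
      simp only [← mul_sub, Finset.prod_mul_distrib, Finset.prod_const, Finset.card_univ,
        Fintype.card_fin]
      ring
    have hA : (fun i => A (c • w) (c * ρ w i)) = fun i => A w (ρ w i) := by
      ext i; simp only [A, pt_smul, hφs c _ hc]
    rw [hR _ _ hr, hA]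
    simp only [R, Θ, ← mul_sub, Finset.prod_mul_distrib, Finset.prod_const, ← pow_mul]
    congr 2
    have h1 := Finset.card_filter_add_card_filter_not (s := Finset.univ)
      (fun i => A w (ρ w i))
    have h2 := hmw w hw
    simp only [m, Finset.card_univ, Fintype.card_fin] at h1 h2 ⊢
    rw [← h2, mul_comm]
    congr 1
    omega

end Pool.Agent.P.MP_a3b544_ag.PC
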