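import Pool.Agent.P.MP_a3b544_ag.F2.Ifc
import Pool.Agent.P.MP_a3b544_ag.PC.Connected

/-! The sharp upper bound for plane curves from the abstract bound. -/

namespace Pool.Agent.P.MP_a3b544_ag.PC

open scoped ContDiff ENNReal NNReal Topology Polynomial
open Set MeasureTheory Filter

variable {F : MvPolynomial (Fin 3) ℂ} {d : ℕ}

/-- An orthonormal triple. -/
structure Frame (e₀ e₁ e₂ : E3) : Prop where
  n0 : ‖e₀‖ = 1
  n1 : ‖e₁‖ = 1
  n2 : ‖e₂‖ = 1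
  i01 : inner ℂ e₀ e₁ = 0
  i02 : inner ℂ e₀ e₂ = 0
  i12 : inner ℂ e₁ e₂ = 0

variable {e₀ e₁ e₂ : E3}

lemma Frame.rot (h : Frame e₀ e₁ e₂) : Frame e₁ e₂ e₀ :=
  ⟨h.n1, h.n2, h.n0, h.i12, inner_eq_zero_symm.1 h.i01, inner_eq_zero_symm.1 h.i02⟩

lemma Frame.swap (h : Frame e₀ e₁ e₂) : Frame e₀ e₂ e₁ :=
  ⟨h.n0, h.n2, h.n1, h.i02, h.i01, inner_eq_zero_symm.1 h.i12⟩

lemma Frame.inner_left (h : Frame e₀ e₁ e₂) (a x t : ℂ) :
    inner ℂ e₀ (a • e₀ + x • e₁ + t • e₂) = a := by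
  simp [inner_add_right, inner_smul_right, h.i01, h.i02, h.n0]

lemma Frame.norm_sq (h : Frame e₀ e₁ e₂) (a x t : ℂ) :
    ‖a • e₀ + x • e₁ + t • e₂‖ ^ 2 = ‖a‖ ^ 2 + ‖x‖ ^ 2 + ‖t‖ ^ 2 := by
  have h1 : inner ℂ (a • e₀) (x • e₁) = 0 := by
    simp [inner_smul_left, inner_smul_right, h.i01]
  have h2 : inner ℂ (a • e₀ + x • e₁) (t • e₂) = 0 := by
    simp [inner_add_left, inner_smul_left, inner_smul_right, h.i02, h.i12]
  rw [@norm_add_sq ℂ, @norm_add_sq ℂ, h1, h2]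
  simp [norm_smul, h.n0, h.n1, h.n2]

lemma Frame.exists_rot (hF : F.IsHomogeneous d) (h : Frame e₀ e₁ e₂) (h₀ : ev F e₀ ≠ 0) :
    ∃ f₀ f₁, Frame f₀ f₁ e₂ ∧ ev F f₀ ≠ 0 ∧ ev F f₁ ≠ 0 ∧
      ∀ a x : ℂ, ∃ a' x' : ℂ, a • e₀ + x • e₁ = a' • f₀ + x' • f₁ := by
  obtain ⟨Q₁, -, -, q₁⟩ := exists_linePoly hF e₀ e₁
  obtain ⟨Q₂, -, q₂', q₂⟩ := exists_linePoly hF e₁ ((-1 : ℂ) • e₀)
  have n1 : Q₁ ≠ 0 := by
    intro h0
    have := q₁ 0
    rw [h0] at this
    exact h₀ (by simpa using this.symm)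
  have n2 : Q₂ ≠ 0 := by
    intro h0
    rw [h0, ev_smul hF] at q₂'
    exact h₀ (by simpa using q₂'.symm)
  have hfin : ((fun t : ℝ => (t : ℂ)) ⁻¹' {x | (Q₁ * Q₂).IsRoot x}).Finite :=
    (Polynomial.finite_setOfPred_isRoot (mul_ne_zero n1 n2)).preimage
      Complex.ofReal_injective.injOn
  obtain ⟨t, ht⟩ := hfin.exists_notMem
  simp only [mem_preimage, mem_ofPred_eq, Polynomial.IsRoot, Polynomial.eval_mul, mul_eq_zero,
    not_or, q₁, q₂] at ht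
  set c : ℝ := (√(1 + t ^ 2))⁻¹ with hc
  have hc0 : 0 < c := by positivity
  have hc2 : c ^ 2 * (1 + t ^ 2) = 1 := by
    rw [hc, inv_pow, Real.sq_sqrt (by positivity)]; field_simp
  have hc2' : (c : ℂ) ^ 2 * (1 + t ^ 2) = 1 := by exact_mod_cast hc2
  have hcne : (c : ℂ) ≠ 0 := by exact_mod_cast hc0.ne'
  have i10 : inner ℂ e₁ e₀ = 0 := inner_eq_zero_symm.1 h.i01
  refine ⟨(c : ℂ) • (e₀ + (t : ℂ) • e₁), (c : ℂ) • (e₁ + (t : ℂ) • ((-1 : ℂ) • e₀)),
    ⟨?_, ?_, h.n2, ?_, ?_, ?_⟩, ?_, ?_, fun a x => ?_⟩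
  · have := h.norm_sq 1 t 0
    simp only [one_smul, zero_smul, add_zero, norm_one, norm_zero, Complex.norm_real,
      Real.norm_eq_abs, sq_abs] at this
    refine (pow_left_inj₀ (norm_nonneg _) zero_le_one two_ne_zero).1 ?_
    rw [norm_smul, mul_pow, this, Complex.norm_real, Real.norm_eq_abs, sq_abs]
    linarith
  · have := h.norm_sq (-t) 1 0
    simp only [one_smul, zero_smul, add_zero, norm_one, norm_zero, norm_neg, Complex.norm_real,
      Real.norm_eq_abs, sq_abs] at this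
    refine (pow_left_inj₀ (norm_nonneg _) zero_le_one two_ne_zero).1 ?_
    rw [norm_smul, mul_pow, smul_smul, mul_neg_one, add_comm, this, Complex.norm_real,
      Real.norm_eq_abs, sq_abs]
    linarith
  · simp only [inner_add_left, inner_add_right, inner_smul_left, inner_smul_right, h.i01, i10,
      inner_self_eq_norm_sq_to_K, h.n0, h.n1, Complex.conj_ofReal]
    simp [mul_comm]
  · simp only [inner_add_left, inner_smul_left, h.i02, h.i12, mul_zero, add_zero]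
  · simp only [inner_add_left, inner_smul_left, h.i02, h.i12, mul_zero, add_zero]
  · rw [ev_smul hF]; exact mul_ne_zero (pow_ne_zero _ hcne) ht.1
  · rw [ev_smul hF]; exact mul_ne_zero (pow_ne_zero _ hcne) ht.2
  · refine ⟨c * (a + t * x), c * (x - t * a), ?_⟩
    have e1 : a = (c * (a + t * x)) * c - (c * (x - t * a)) * c * t := by
      linear_combination (-a) * hc2'
    have e2 : x = (c * (a + t * x)) * c * t + (c * (x - t * a)) * c := by
      linear_combination (-x) * hc2'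
    calc a • e₀ + x • e₁ = ((c * (a + t * x)) * c - (c * (x - t * a)) * c * t) • e₀ +
          ((c * (a + t * x)) * c * t + (c * (x - t * a)) * c) • e₁ := by rw [← e1, ← e2]
      _ = _ := by module

lemma exists_frame (hd : 1 ≤ d) (hF : IsSmoothCurve d F) :
    ∃ e₀ e₁ e₂, Frame e₀ e₁ e₂ ∧ ev F e₁ ≠ 0 ∧ ev F e₂ ≠ 0 ∧
      ∀ y : E3, ∃ a x t : ℂ, y = a • e₀ + x • e₁ + t • e₂ := by
  obtain ⟨o, ho⟩ : ∃ o, ev F o ≠ 0 := by
    by_contra hcon
    push Not at hcon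
    have hF0 : F = 0 := MvPolynomial.funext fun x => by
      simpa [ev] using hcon (WithLp.toLp 2 x)
    obtain ⟨j, hj⟩ := hF.2 (EuclideanSpace.single 0 1) ⟨by simp, hcon _⟩
    simp [hF0] at hj
  have ho0 : o ≠ 0 := by
    rintro rfl
    have := ev_smul hF.1 0 (0 : E3)
    rw [zero_smul, zero_pow (by omega), zero_mul] at this
    exact ho this
  let v : Fin 3 → E3 := fun _ => ((‖o‖⁻¹ : ℝ) : ℂ) • o
  have hv : Orthonormal ℂ (({0} : Set (Fin 3)).domRestrict v) := by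
    constructor
    · rintro ⟨i, hi⟩
      change ‖((‖o‖⁻¹ : ℝ) : ℂ) • o‖ = 1
      rw [norm_smul, Complex.norm_real, norm_inv, norm_norm,
        inv_mul_cancel₀ (norm_ne_zero_iff.2 ho0)]
    · rintro ⟨i, rfl⟩ ⟨j, rfl⟩ hij
      exact absurd rfl hij
  obtain ⟨b, hb⟩ := hv.exists_orthonormalBasis_extension_of_card_eq (by simp)
  have b0 : b 0 = ((‖o‖⁻¹ : ℝ) : ℂ) • o := hb 0 (by simp)
  have fr : Frame (b 0) (b 1) (b 2) :=
    ⟨b.orthonormal.1 _, b.orthonormal.1 _, b.orthonormal.1 _, b.orthonormal.2 (by decide),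
      b.orthonormal.2 (by decide), b.orthonormal.2 (by decide)⟩
  have e0 : ev F (b 0) ≠ 0 := by
    rw [b0, ev_smul hF.1]
    refine mul_ne_zero (pow_ne_zero _ ?_) ho
    exact_mod_cast inv_ne_zero (norm_ne_zero_iff.2 ho0)
  obtain ⟨f₀, f₁, fr₁, k0, k1, s₁⟩ := fr.exists_rot hF.1 e0
  refine ⟨b 2, f₀, f₁, fr₁.rot.rot, k0, k1, fun y => ?_⟩
  have h1 := b.sum_repr' y
  rw [Fin.sum_univ_three] at h1
  obtain ⟨a', x', h2⟩ := s₁ (inner ℂ (b 0) y) (inner ℂ (b 1) y)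
  refine ⟨inner ℂ (b 2) y, a', x', ?_⟩
  rw [add_assoc, ← h2, add_comm]
  exact h1.symm

lemma Frame.ne_zero (h : Frame e₀ e₁ e₂) {a : ℂ} (ha : a ≠ 0) (x t : ℂ) :
    a • e₀ + x • e₁ + t • e₂ ≠ 0 := by
  intro h0
  have := h.inner_left a x t
  rw [h0, inner_zero_right] at this
  exact ha this.symm

lemma Frame.speed (h : Frame e₀ e₁ e₂) (x y s c : ℂ) :
    fsSpeed (e₀ + x • e₁ + y • e₂) (c • e₁ + (s * c) • e₂) = ‖c‖ * F2.lam x y s := by
  have n1 := h.norm_sq 1 x y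
  have n2 := h.norm_sq 0 c (s * c)
  rw [one_smul] at n1
  rw [zero_smul, zero_add] at n2
  have i10 : inner ℂ e₁ e₀ = 0 := inner_eq_zero_symm.1 h.i01
  have i21 : inner ℂ e₂ e₁ = 0 := inner_eq_zero_symm.1 h.i12
  have n3 : inner ℂ (e₀ + x • e₁ + y • e₂) (c • e₁ + (s * c) • e₂) =
      c * F2.herm (0, 1, s) (1, x, y) := by
    simp only [inner_add_left, inner_add_right, inner_smul_left, inner_smul_right, h.i01, h.i02,
      h.i12, i21, inner_self_eq_norm_sq_to_K, h.n1, h.n2, F2.herm]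
    simp
    ring
  rw [fsSpeed_def, n1, n2, n3, F2.lam, F2.spd, ← mul_div_assoc]
  congr 1
  rw [← Real.sqrt_sq (norm_nonneg c), ← Real.sqrt_mul (sq_nonneg _), Real.sqrt_sq (norm_nonneg c)]
  congr 1
  simp only [F2.nsq, norm_mul, norm_zero, norm_one]
  ring

lemma continuous_lam : Continuous fun u : ℂ × ℂ × ℂ => F2.lam u.1 u.2.1 u.2.2 := by
  unfold F2.lam F2.spd F2.nsq F2.herm
  refine Continuous.div (by fun_prop) (by fun_prop) fun u => ?_
  simp only [norm_one]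
  positivity

lemma Frame.graph (h : Frame e₀ e₁ e₂) {g : ℂ → ℂ} {x₀ : ℂ} (hg : AnalyticAt ℂ g x₀)
    (hC : ∀ᶠ x in 𝓝 x₀, (x, g x) ∈ sect F e₀ e₁ e₂) {K : ℝ}
    (hK : F2.lam x₀ (g x₀) (deriv g x₀) < K) :
    ∃ t ∈ 𝓝 x₀, ∀ x ∈ t, ∀ y ∈ t,
      intrinsicDist F (e₀ + x • e₁ + g x • e₂) (e₀ + y • e₁ + g y • e₂) ≤
        ENNReal.ofReal (K * dist y x) := by
  have hc : ContinuousAt (fun x => F2.lam x (g x) (deriv g x)) x₀ :=
    continuous_lam.continuousAt.comp (f := fun x => (x, g x, deriv g x))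
      (continuousAt_id.prodMk (hg.continuousAt.prodMk hg.deriv.continuousAt))
  obtain ⟨r, hr, hb⟩ := Metric.eventually_nhds_iff_ball.1
    (hg.eventually_analyticAt.and (hC.and (hc.eventually (gt_mem_nhds hK))))
  refine ⟨Metric.ball x₀ r, Metric.ball_mem_nhds _ hr, fun x hx y hy => ?_⟩
  let l : ℝ → ℂ := fun τ => x + τ * (y - x)
  have hl : ∀ τ ∈ Icc (0 : ℝ) 1, l τ ∈ Metric.ball x₀ r := fun τ hτ => by
    have := (convex_ball x₀ r).add_smul_sub_mem hx hy hτ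
    simpa [l] using this
  have hls : ContDiff ℝ ∞ l :=
    contDiff_const.add (Complex.ofRealCLM.contDiff.mul contDiff_const)
  have hgl : ∀ τ ∈ Icc (0 : ℝ) 1, ContDiffAt ℝ ∞ (fun τ => g (l τ)) τ := fun τ hτ =>
    (((hb _ (hl τ hτ)).1.contDiffAt (n := ∞)).restrict_scalars ℝ).comp τ hls.contDiffAt
  have k := dist_le_lintegral (F := F) (γ := fun τ => e₀ + l τ • e₁ + g (l τ) • e₂) (a := 0)
    (b := 1)
    (by
      rw [uIcc_of_le zero_le_one]
      exact (contDiffOn_const.add (hls.contDiffOn.smul contDiffOn_const)).add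
        (ContDiffOn.smul (fun τ hτ => (hgl τ hτ).contDiffWithinAt) contDiffOn_const))
    (by
      rw [uIcc_of_le zero_le_one]
      refine fun τ hτ => ⟨?_, (hb _ (hl τ hτ)).2.1⟩
      simpa using h.ne_zero one_ne_zero (l τ) (g (l τ)))
  have l0 : l 0 = x := by simp [l]
  have l1 : l 1 = y := by simp [l]
  simp only [l0, l1] at k
  refine k.trans ?_
  rw [uIcc_of_le zero_le_one]
  refine (setLIntegral_mono' measurableSet_Icc
    (g := fun _ => ENNReal.ofReal (K * dist y x)) fun τ hτ => ?_).trans (by simp)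
  have dl : HasDerivAt l (y - x) τ := by
    have := ((Complex.ofRealCLM.hasDerivAt (x := τ)).mul_const (y - x)).const_add x
    simp only [Complex.ofRealCLM_apply, Complex.ofReal_one, one_mul] at this
    exact this
  have dg : HasDerivAt (fun τ => g (l τ)) (deriv g (l τ) * (y - x)) τ := by
    have := (hb _ (hl τ hτ)).1.differentiableAt.hasDerivAt.scomp τ dl
    simpa [Function.comp_def, mul_comm] using this
  have dγ : HasDerivAt (fun τ => e₀ + l τ • e₁ + g (l τ) • e₂)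
      ((y - x) • e₁ + (deriv g (l τ) * (y - x)) • e₂) τ :=
    ((dl.smul_const e₁).const_add e₀).add (dg.smul_const e₂)
  rw [dγ.deriv, h.speed, dist_eq_norm, mul_comm K]
  exact ENNReal.ofReal_le_ofReal
    (mul_le_mul_of_nonneg_left (hb _ (hl τ hτ)).2.2.le (norm_nonneg _))

lemma near_root (hF : F.IsHomogeneous d) {a₀ b : E3} {T : ℂ} (hb : ev F b ≠ 0)
    (h0 : ev F (a₀ + T • b) = 0) {ε : ℝ} (hε : 0 < ε) :
    ∀ᶠ a in 𝓝 a₀, ∃ T', ‖T - T'‖ < ε ∧ ev F (a + T' • b) = 0 := by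
  have h1 : ContinuousAt (fun a : E3 => ‖ev F (a + T • b)‖) a₀ :=
    ((continuous_ev F).comp (by fun_prop)).norm.continuousAt
  have h2 : ‖ev F (a₀ + T • b)‖ < ‖ev F b‖ * ε ^ d := by
    rw [h0, norm_zero]
    exact mul_pos (norm_pos_iff.2 hb) (pow_pos hε d)
  filter_upwards [h1.eventually (gt_mem_nhds h2)] with a ha
  obtain ⟨ρ, hρ⟩ := exists_roots hF a hb
  have : ∃ i, ‖T - ρ i‖ < ε := by
    by_contra hcon
    push Not at hcon
    rw [hρ, norm_mul, norm_prod] at ha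
    have h3 : ε ^ d ≤ ∏ i, ‖T - ρ i‖ := by
      calc ε ^ d = ∏ _i : Fin d, ε := by simp
        _ ≤ _ := Finset.prod_le_prod (fun _ _ => hε.le) fun i _ => hcon i
    exact absurd ha (not_lt.2 (by gcongr))
  obtain ⟨i, hi⟩ := this
  refine ⟨ρ i, hi, ?_⟩
  rw [hρ, Finset.prod_eq_zero (Finset.mem_univ i) (sub_self _), mul_zero]

lemma Frame.generic (hF : F.IsHomogeneous d) (h : Frame e₀ e₁ e₂) (h₂ : ev F e₂ ≠ 0)
    {Z : Set ℂ} (hZ : Z.Finite) {a x T : ℂ} (hz : a • e₀ + x • e₁ + T • e₂ ∈ cone F)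
    {W : Set E3} (hW : W ∈ 𝓝[cone F] (a • e₀ + x • e₁ + T • e₂)) :
    ∃ (c : ℂ) (u : ℂ × ℂ), c ≠ 0 ∧ u ∈ sect F e₀ e₁ e₂ ∧ u.1 ∉ Z ∧
      c • (e₀ + u.1 • e₁ + u.2 • e₂) ∈ W := by
  obtain ⟨ε, hε, hεW⟩ := Metric.mem_nhdsWithin_iff.1 hW
  obtain ⟨c, hc⟩ := hZ.exists_notMem
  have ht : Tendsto (fun η : ℂ => (a + η) • e₀ + (x + η * c) • e₁) (𝓝 0)
      (𝓝 (a • e₀ + x • e₁)) := by
    have : Continuous fun η : ℂ => (a + η) • e₀ + (x + η * c) • e₁ := by fun_prop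
    simpa using this.tendsto 0
  have hev := (ht.eventually (near_root hF h₂ hz.2 (half_pos hε))).and
    (ht.eventually (Metric.ball_mem_nhds _ (half_pos hε)))
  obtain ⟨η, ⟨⟨T', hT, hr⟩, hd⟩, hη⟩ := (infinite_of_mem_nhds (0 : ℂ) hev).exists_notMem_finite
    ((hZ.image fun z => (z * a - x) / (c - z)).insert (-a))
  have ha : a + η ≠ 0 := fun h0 => hη (Or.inl (by linear_combination h0))
  have he : (a + η) • (e₀ + ((x + η * c) / (a + η)) • e₁ + (T' / (a + η)) • e₂) =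
      (a + η) • e₀ + (x + η * c) • e₁ + T' • e₂ := by
    rw [smul_add, smul_add, smul_smul, smul_smul, mul_div_cancel₀ _ ha, mul_div_cancel₀ _ ha]
  refine ⟨a + η, ((x + η * c) / (a + η), T' / (a + η)), ha, ?_, fun hm => hη (Or.inr ⟨_, hm, ?_⟩),
    ?_⟩
  · have := ev_smul hF (a + η) (e₀ + ((x + η * c) / (a + η)) • e₁ + (T' / (a + η)) • e₂)
    rw [he, hr] at this
    exact (mul_eq_zero.1 this.symm).resolve_left (pow_ne_zero _ ha)
  · have hne : c - (x + η * c) / (a + η) ≠ 0 := fun h0 => hc (by rwa [sub_eq_zero.1 h0])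
    simp only
    rw [div_eq_iff hne]
    field_simp
    ring
  · simp only
    rw [he]
    refine hεW ⟨?_, h.ne_zero ha _ _, hr⟩
    rw [Metric.mem_ball]
    refine (dist_add_add_le _ _ _ _).trans_lt ?_
    have : dist (T' • e₂) (T • e₂) < ε / 2 := by
      rw [dist_eq_norm, ← sub_smul, norm_smul, h.n2, mul_one, norm_sub_rev]
      exact hT
    linarith

lemma toReal_min_le {a b : ℝ≥0∞} {M δ : ℝ} (hδ : 0 ≤ δ) (h : a ≤ b + ENNReal.ofReal δ) :
    (min a (ENNReal.ofReal M)).toReal ≤ (min b (ENNReal.ofReal M)).toReal + δ := by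
  have hb : min b (ENNReal.ofReal M) ≠ ⊤ :=
    ne_top_of_le_ne_top ENNReal.ofReal_ne_top (min_le_right _ _)
  rw [← ENNReal.toReal_ofReal hδ, ← ENNReal.toReal_add hb ENNReal.ofReal_ne_top]
  refine ENNReal.toReal_mono (ENNReal.add_ne_top.2 ⟨hb, ENNReal.ofReal_ne_top⟩) ?_
  rw [← min_add_add_right]
  exact min_le_min h le_self_add

theorem dist_sharp (H : F2.AbstractBound) (hd : 1 ≤ d) (hF : IsSmoothCurve d F) {p q : E3}
    (hp : p ∈ cone F) (hq : q ∈ cone F) :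
    intrinsicDist F p q ≤ ENNReal.ofReal (Real.pi / 2 * d) := by
  classical
  by_contra hcon
  obtain ⟨L, -, hL1, hL2⟩ := ENNReal.lt_iff_exists_real_btwn.1 (not_le.1 hcon)
  refine absurd (ENNReal.ofReal_le_ofReal ?_) (not_le.2 hL1)
  obtain ⟨e₀, e₁, e₂, fr, h₁, h₂, hsp⟩ := exists_frame hd hF
  obtain ⟨Z, hN⟩ := exists_nice hd hF.1 e₀ h₁ h₂
  have hN' : Nice (sect F e₀ e₁ e₂) (insert 0 Z) :=
    ⟨hN.finZ.insert 0, hN.closed, hN.bdd, hN.fib, hN.opn,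
      fun u hu hZ => hN.chart u hu fun h => hZ (Or.inr h)⟩
  refine H (sect F e₀ e₁ e₂) (insert 0 Z) d
    (fun u => (min (intrinsicDist F p (e₀ + u.1 • e₁ + u.2 • e₂)) (ENNReal.ofReal L)).toReal) L hN'
    (insert_nonempty _ _) (fun x => ?_) (fun α β => ?_) (fun g x₀ hg hC K hK => ?_)
    fun s t hs hst htL => ?_
  · obtain ⟨ρ, hρ⟩ := sect_fiber hF.1 e₀ e₁ h₂ x
    refine ⟨Finset.univ.image ρ, Finset.card_image_le.trans (by simp), fun v hv => ?_⟩
    simpa using hρ v hv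
  · obtain ⟨Q, hQ, -, hQe⟩ := exists_linePoly hF.1 (e₀ + α • e₂) (e₁ + β • e₂)
    have key : ∀ x : ℂ, (x, α + β * x) ∈ sect F e₀ e₁ e₂ ↔ Q.eval x = 0 := fun x => by
      rw [hQe, show e₀ + α • e₂ + x • (e₁ + β • e₂) = e₀ + x • e₁ + (α + β * x) • e₂ by module]
      rfl
    by_cases h0 : Q = 0
    · exact Or.inl fun x => (key x).2 (by simp [h0])
    · refine Or.inr ⟨Q.roots.toFinset, (Multiset.toFinset_card_le _).trans
        ((Polynomial.card_roots' Q).trans hQ), fun x hx => ?_⟩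
      rw [Multiset.mem_toFinset, Polynomial.mem_roots h0]
      exact (key x).1 hx
  · obtain ⟨t, ht, hb⟩ := fr.graph hg hC hK
    refine ⟨t, ht, LipschitzOnWith.of_le_add_mul K fun x hx y hy => ?_⟩
    exact toReal_min_le (by positivity)
      ((dist_triangle' _ _ _).trans (add_le_add le_rfl (hb y hy x hx)))
  · obtain ⟨a₁, x₁, t₁, hp'⟩ := hsp p
    obtain ⟨a₂, x₂, t₂, hq'⟩ := hsp q
    obtain ⟨w, T, hw, hlev⟩ := exists_level hd hF.1 (e₀ := e₀) (e₁ := e₁) h₂ (fun w T hw h0 => by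
        have := fr.norm_sq w.1 w.2 T
        rw [show w.1 • e₀ + w.2 • e₁ + T • e₂ = 0 from h0, norm_zero] at this
        apply hw
        have a1 : ‖w.1‖ ^ 2 = 0 := by nlinarith [sq_nonneg ‖w.1‖, sq_nonneg ‖w.2‖, sq_nonneg ‖T‖]
        have a2 : ‖w.2‖ ^ 2 = 0 := by nlinarith [sq_nonneg ‖w.1‖, sq_nonneg ‖w.2‖, sq_nonneg ‖T‖]
        exact Prod.ext (by simpa using a1) (by simpa using a2))
      (continuousOn_dist hF p) (fun c z hc => dist_smul_right hc)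
      (s := ENNReal.ofReal ((s + t) / 2)) (w₁ := (a₁, x₁)) (T₁ := t₁) (w₂ := (a₂, x₂)) (T₂ := t₂)
      (by rw [show pt e₀ e₁ e₂ (a₁, x₁) t₁ = p from hp'.symm]; exact hp)
      (by rw [show pt e₀ e₁ e₂ (a₂, x₂) t₂ = q from hq'.symm]; exact hq)
      (by
        rw [show pt e₀ e₁ e₂ (a₁, x₁) t₁ = p from hp'.symm, dist_self' hp, ENNReal.ofReal_pos]
        linarith)
      (by
        rw [show pt e₀ e₁ e₂ (a₂, x₂) t₂ = q from hq'.symm]
        exact le_trans (ENNReal.ofReal_le_ofReal (by linarith)) hL2.le)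
    have hW : intrinsicDist F p ⁻¹' Ioo (ENNReal.ofReal s) (ENNReal.ofReal t) ∈
        𝓝[cone F] (w.1 • e₀ + w.2 • e₁ + T • e₂) := by
      refine continuousOn_dist hF p _ hw (Ioo_mem_nhds ?_ ?_)
      · rw [hlev, ENNReal.ofReal_lt_ofReal_iff (by linarith)]; linarith
      · rw [hlev, ENNReal.ofReal_lt_ofReal_iff (by linarith)]; linarith
    obtain ⟨c, u, hc, hu, huZ, hm⟩ := fr.generic hF.1 h₂ hN'.finZ hw hW
    rw [mem_preimage, dist_smul_right hc] at hm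
    refine ⟨u, hu, huZ, ?_⟩
    rw [min_eq_left (hm.2.le.trans (ENNReal.ofReal_le_ofReal htL))]
    exact ⟨(ENNReal.ofReal_lt_iff_lt_toReal hs hm.2.ne_top).1 hm.1,
      ENNReal.toReal_lt_of_lt_ofReal hm.2⟩

theorem upper_sharp (H : F2.AbstractBound) {d : ℕ} (hd : 1 ≤ d) :
    maxDiam d ≤ ENNReal.ofReal (Real.pi / 2 * d) :=
  iSup₂_le fun _ hF => iSup₂_le fun _ hp => iSup₂_le fun _ hq => dist_sharp H hd hF hp hq

end Pool.Agent.P.MP_a3b544_ag.PC
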