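import Pool.Agent.P.MP_a3b544_ag.PC.Defs

/-! Basic properties of the intrinsic distance. -/

namespace Pool.Agent.P.MP_a3b544_ag.PC

open scoped ContDiff ENNReal
open Set MeasureTheory Submodule

abbrev E3 := EuclideanSpace ℂ (Fin 3)

variable {F : MvPolynomial (Fin 3) ℂ}

/-- A single smooth arc in the surface. -/
def IsArc (F : MvPolynomial (Fin 3) ℂ) (γ : ℝ → E3) : Prop :=
  ContDiffOn ℝ ∞ γ (Icc 0 1) ∧ ∀ t ∈ Icc (0 : ℝ) 1, γ t ∈ cone F

lemma fsSpeed_def (z v : E3) :
    fsSpeed z v = √(‖z‖ ^ 2 * ‖v‖ ^ 2 - ‖inner ℂ z v‖ ^ 2) / ‖z‖ ^ 2 := by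
  have : inner ℂ z v = ∑ i, star (z i) * v i := by
    rw [PiLp.inner_apply]
    exact Finset.sum_congr rfl fun i _ => by simp [mul_comm]
  rw [this]; rfl

lemma fsSpeed_nonneg (z v : E3) : 0 ≤ fsSpeed z v := by
  unfold fsSpeed; positivity

lemma fsSpeed_le (z v : E3) (hz : z ≠ 0) : fsSpeed z v ≤ ‖v‖ / ‖z‖ := by
  have h : 0 < ‖z‖ := norm_pos_iff.2 hz
  simp only [fsSpeed_def]
  rw [div_le_div_iff₀ (by positivity) h]
  have : √(‖z‖ ^ 2 * ‖v‖ ^ 2 - ‖inner ℂ z v‖ ^ 2) ≤ ‖z‖ * ‖v‖ := by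
    apply Real.sqrt_le_iff.2
    refine ⟨by positivity, ?_⟩
    nlinarith [sq_nonneg ‖inner ℂ z v‖]
  nlinarith

lemma fsSpeed_smul (z v : E3) (c : ℝ) : fsSpeed z (c • v) = |c| * fsSpeed z v := by
  simp only [fsSpeed_def]
  have h1 : ‖c • v‖ = |c| * ‖v‖ := by rw [norm_smul, Real.norm_eq_abs]
  have h2 : ‖inner ℂ z (c • v)‖ = |c| * ‖inner ℂ z v‖ := by
    rw [inner_smul_right_eq_smul, norm_smul, Real.norm_eq_abs]
  rw [h1, h2]
  have : ‖z‖ ^ 2 * (|c| * ‖v‖) ^ 2 - (|c| * ‖inner ℂ z v‖) ^ 2 =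
      |c| ^ 2 * (‖z‖ ^ 2 * ‖v‖ ^ 2 - ‖inner ℂ z v‖ ^ 2) := by ring
  rw [this, Real.sqrt_mul (sq_nonneg _), Real.sqrt_sq (abs_nonneg _)]
  ring

lemma dist_le_of_curve {x y : E3} {n : ℕ} {γ : ℕ → ℝ → E3}
    (h : IsPiecewiseSmoothCurve F x y n γ) :
    intrinsicDist F x y ≤ ∑ i ∈ Finset.range (n + 1), arcLength (γ i) :=
  iInf_le_of_le n (iInf_le_of_le γ (iInf_le_of_le h le_rfl))

lemma le_dist {x y : E3} {a : ℝ≥0∞}
    (h : ∀ n γ, IsPiecewiseSmoothCurve F x y n γ →
      a ≤ ∑ i ∈ Finset.range (n + 1), arcLength (γ i)) : a ≤ intrinsicDist F x y :=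
  le_iInf fun n => le_iInf fun γ => le_iInf fun hγ => h n γ hγ

lemma dist_congr {x y x' y' : E3} (hx : span ℂ {x} = span ℂ {x'})
    (hy : span ℂ {y} = span ℂ {y'}) : intrinsicDist F x y = intrinsicDist F x' y' := by
  unfold intrinsicDist IsPiecewiseSmoothCurve
  rw [hx, hy]

lemma dist_smul_left {x y : E3} {c : ℂ} (hc : c ≠ 0) :
    intrinsicDist F (c • x) y = intrinsicDist F x y :=
  dist_congr (span_singleton_smul_eq hc.isUnit x) rfl

lemma dist_smul_right {x y : E3} {c : ℂ} (hc : c ≠ 0) :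
    intrinsicDist F x (c • y) = intrinsicDist F x y :=
  dist_congr rfl (span_singleton_smul_eq hc.isUnit y)

lemma dist_le_arc {γ : ℝ → E3} (h : IsArc F γ) : intrinsicDist F (γ 0) (γ 1) ≤ arcLength γ := by
  have : IsPiecewiseSmoothCurve F (γ 0) (γ 1) 0 (fun _ => γ) :=
    ⟨fun _ _ => h, rfl, rfl, fun i hi => absurd hi (Nat.not_lt_zero _)⟩
  simpa using dist_le_of_curve this

lemma dist_triangle' (x y z : E3) :
    intrinsicDist F x z ≤ intrinsicDist F x y + intrinsicDist F y z := by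
  rw [← tsub_le_iff_right]
  refine le_dist fun n γ hγ => ?_
  rw [tsub_le_iff_right, ← tsub_le_iff_left]
  refine le_dist fun m η hη => ?_
  rw [tsub_le_iff_left]
  let ζ : ℕ → ℝ → E3 := fun i => if i ≤ n then γ i else η (i - (n + 1))
  have hζ : IsPiecewiseSmoothCurve F x z (n + 1 + m) ζ := by
    refine ⟨fun i hi => ?_, ?_, ?_, fun i hi => ?_⟩
    · by_cases h : i ≤ n
      · simpa [ζ, h] using hγ.1 i h
      · simpa [ζ, h] using hη.1 (i - (n + 1)) (by omega)
    · simpa [ζ] using hγ.2.1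
    · have h : ¬ n + 1 + m ≤ n := by omega
      simpa [ζ, h] using hη.2.2.1
    · rcases lt_trichotomy i n with h | h | h
      · have h1 : i ≤ n := h.le
        have h2 : i + 1 ≤ n := h
        simpa [ζ, h1, h2] using hγ.2.2.2 i h
      · subst h
        simpa [ζ] using hγ.2.2.1.trans hη.2.1.symm
      · have h1 : ¬ i ≤ n := by omega
        have h2 : ¬ i + 1 ≤ n := by omega
        have h3 : i + 1 - (n + 1) = i - (n + 1) + 1 := by omega
        simp only [ζ, h1, h2, if_false, h3]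
        exact hη.2.2.2 _ (by omega)
  refine (dist_le_of_curve hζ).trans (le_of_eq ?_)
  rw [show n + 1 + m + 1 = (n + 1) + (m + 1) by ring, Finset.sum_range_add]
  congr 1
  · refine Finset.sum_congr rfl fun i hi => ?_
    have : i ≤ n := Nat.lt_succ_iff.1 (Finset.mem_range.1 hi)
    simp [ζ, this]
  · refine Finset.sum_congr rfl fun i _ => ?_
    have : ¬ n + 1 + i ≤ n := by omega
    simp [ζ, this]

/-- Induction principle: a projectively invariant function satisfying the triangle inequality and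
bounded by the length on arcs is bounded by the intrinsic distance. -/
lemma le_dist_of_arc (g : E3 → E3 → ℝ≥0∞)
    (hg : ∀ x y x' y', span ℂ {x} = span ℂ {x'} → span ℂ {y} = span ℂ {y'} → g x y = g x' y')
    (harc : ∀ γ, IsArc F γ → g (γ 0) (γ 1) ≤ arcLength γ)
    (htri : ∀ x y z, y ∈ cone F → g x z ≤ g x y + g y z) (x y : E3) :
    g x y ≤ intrinsicDist F x y := by
  refine le_dist fun n γ hγ => ?_
  have key : ∀ k ≤ n, g x (γ k 1) ≤ ∑ i ∈ Finset.range (k + 1), arcLength (γ i) := by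
    intro k
    induction k with
    | zero =>
      intro _
      rw [hg x (γ 0 1) (γ 0 0) (γ 0 1) hγ.2.1.symm rfl]
      simpa using harc _ (hγ.1 0 (Nat.zero_le _))
    | succ k ih =>
      intro hk
      rw [Finset.sum_range_succ]
      refine (htri x (γ k 1) _ ((hγ.1 k (by omega)).2 1 (by simp))).trans
        (add_le_add (ih (by omega)) ?_)
      rw [hg (γ k 1) (γ (k + 1) 1) (γ (k + 1) 0) (γ (k + 1) 1) (hγ.2.2.2 k hk) rfl]
      exact harc _ (hγ.1 (k + 1) hk)
  rw [hg x y x (γ n 1) rfl hγ.2.2.1.symm]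
  exact key n le_rfl

lemma dist_self' {x : E3} (hx : x ∈ cone F) : intrinsicDist F x x = 0 := by
  have h : IsArc F (fun _ => x) := ⟨contDiffOn_const, fun _ _ => hx⟩
  have := dist_le_arc h
  simpa [arcLength, fsSpeed_def] using this

/-- The distance between the ends of a smooth path is at most its length. -/
lemma dist_le_lintegral {γ : ℝ → E3} {a b : ℝ} (hγ : ContDiffOn ℝ ∞ γ (uIcc a b))
    (hc : ∀ t ∈ uIcc a b, γ t ∈ cone F) :
    intrinsicDist F (γ a) (γ b) ≤
      ∫⁻ t in uIcc a b, ENNReal.ofReal (fsSpeed (γ t) (deriv γ t)) := by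
  by_cases hab : a = b
  · subst hab
    rw [dist_self' (hc a left_mem_uIcc)]
    exact zero_le
  have hba : b - a ≠ 0 := sub_ne_zero.2 (Ne.symm hab)
  let φ : ℝ → ℝ := fun t => a + (b - a) * t
  have himg : φ '' Icc 0 1 = uIcc a b := by
    have h1 : (fun t => a + (b - a) * t) '' uIcc (0 : ℝ) 1 = uIcc a b := by
      rw [← image_image (a + ·) ((b - a) * ·), image_const_mul_uIcc, image_const_add_uIcc]
      simp
    rwa [uIcc_of_le zero_le_one] at h1
  have hmaps : MapsTo φ (Icc 0 1) (uIcc a b) := fun t ht => himg ▸ mem_image_of_mem φ ht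
  have harc : IsArc F (γ ∘ φ) :=
    ⟨hγ.comp (by fun_prop) hmaps, fun t ht => hc _ (hmaps ht)⟩
  have h1 := dist_le_arc harc
  simp only [Function.comp, φ, mul_zero, add_zero, mul_one, add_sub_cancel] at h1
  refine h1.trans (le_of_eq ?_)
  rw [← himg, lintegral_image_eq_lintegral_abs_deriv_mul (f' := fun _ => b - a) measurableSet_Icc]
  · unfold arcLength
    refine lintegral_congr fun t => ?_
    have hd : deriv (fun t => γ (a + (b - a) * t)) t = (b - a) • deriv γ (a + (b - a) * t) := by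
      rw [deriv_comp_mul_left (f := fun s => γ (a + s)), deriv_comp_const_add]
    simp only [Function.comp_def, φ]
    rw [hd, fsSpeed_smul, ENNReal.ofReal_mul (abs_nonneg _)]
  · intro t _
    simpa [φ] using ((hasDerivAt_id t).const_mul (b - a)).const_add a |>.hasDerivWithinAt
  · intro s _ t _ h
    simp only [φ] at h
    exact mul_left_cancel₀ hba (add_left_cancel h)

lemma dist_comm' (x y : E3) : intrinsicDist F x y = intrinsicDist F y x := by
  have key : ∀ x y : E3, intrinsicDist F y x ≤ intrinsicDist F x y := by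
    refine le_dist_of_arc (fun x y => intrinsicDist F y x)
      (fun x y x' y' hx hy => dist_congr hy hx) (fun γ hγ => ?_)
      (fun x y z _ => by rw [add_comm]; exact dist_triangle' _ _ _)
    have h := dist_le_lintegral (F := F) (γ := γ) (a := 1) (b := 0)
      (by rw [uIcc_comm, uIcc_of_le zero_le_one]; exact hγ.1)
      (by rw [uIcc_comm, uIcc_of_le zero_le_one]; exact hγ.2)
    rwa [uIcc_comm, uIcc_of_le zero_le_one] at h
  exact le_antisymm (key y x) (key x y)

/-- Squared modulus of a normalised coordinate. -/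
noncomputable def coordSq (e z : E3) : ℝ := ‖inner ℂ e z‖ ^ 2 / ‖z‖ ^ 2

lemma coordSq_smul (e z : E3) {c : ℂ} (hc : c ≠ 0) : coordSq e (c • z) = coordSq e z := by
  unfold coordSq
  rw [inner_smul_right, norm_mul, norm_smul, mul_pow, mul_pow,
    mul_div_mul_left _ _ (pow_ne_zero _ (norm_ne_zero_iff.2 hc))]

lemma coordSq_congr (e : E3) {x y : E3} (h : span ℂ {x} = span ℂ {y}) :
    coordSq e x = coordSq e y := by
  obtain ⟨c, rfl⟩ := span_singleton_eq_span_singleton.1 h
  rw [Units.smul_def, coordSq_smul _ _ c.ne_zero]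

lemma coordSq_nonneg (e z : E3) : 0 ≤ coordSq e z := by unfold coordSq; positivity

lemma hasDerivAt_coordSq {e : E3} (he : ‖e‖ ≤ 1) {γ : ℝ → E3} {v : E3} {t : ℝ}
    (h : HasDerivAt γ v t) (h0 : γ t ≠ 0) :
    ∃ D : ℝ, HasDerivAt (fun s => coordSq e (γ s)) D t ∧ |D| ≤ 2 * fsSpeed (γ t) v := by
  set z := γ t with hz
  have hn : 0 < ‖z‖ := norm_pos_iff.2 h0
  have h1 : HasDerivAt (fun s => inner ℂ e (γ s)) (inner ℂ e v) t := by
    simpa using (hasDerivAt_const t e).inner ℂ h
  have h2 := h1.norm_sq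
  have h3 : HasDerivAt (fun s => ‖γ s‖ ^ 2) (2 * (inner ℂ z v).re) t := by
    have h4 := h.inner ℂ h
    have h5 := Complex.reCLM.hasFDerivAt.comp_hasDerivAt t h4
    have e1 : (fun s => ‖γ s‖ ^ 2) = ⇑Complex.reCLM ∘ fun t => inner ℂ (γ t) (γ t) := by
      ext s
      simp only [Function.comp, Complex.reCLM_apply]
      exact (inner_self_eq_norm_sq (𝕜 := ℂ) (γ s)).symm
    have e2 : 2 * (inner ℂ z v).re = Complex.reCLM (inner ℂ (γ t) v + inner ℂ v (γ t)) := by
      simp only [Complex.reCLM_apply, Complex.add_re]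
      rw [← inner_conj_symm v z, Complex.conj_re]; ring
    rw [e1, e2]
    exact h5
  refine ⟨_, h2.div h3 (by positivity), ?_⟩
  set a := inner ℂ e z with ha
  set b := inner ℂ e v with hb
  set c := inner ℂ z v with hc
  set n : ℝ := ‖z‖ ^ 2 with hnn
  have hn0 : 0 < n := by positivity
  let w : E3 := v - (c / n) • z
  have hew : inner ℂ e w = b - (c / n) * a := by
    simp only [w, inner_sub_right, inner_smul_right, ha, hb]
  have hw : ‖w‖ ^ 2 = ‖v‖ ^ 2 - ‖c‖ ^ 2 / n := by
    simp only [w]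
    rw [@norm_sub_sq ℂ, inner_smul_right, norm_smul, mul_pow, ← hnn, ← inner_conj_symm v z, ← hc]
    have e1 : RCLike.re (c / n * (starRingEnd ℂ) c) = ‖c‖ ^ 2 / n := by
      rw [div_mul_eq_mul_div, Complex.mul_conj, Complex.normSq_eq_norm_sq]
      norm_cast
    have e2 : ‖c / (n : ℂ)‖ = ‖c‖ / n := by
      rw [norm_div, Complex.norm_real, Real.norm_of_nonneg hn0.le]
    rw [e1, e2]
    field_simp
    ring
  have hsp : fsSpeed z v = ‖z‖ * ‖w‖ / n := by
    simp only [fsSpeed_def]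
    rw [← hnn, ← hc]
    congr 1
    rw [Real.sqrt_eq_iff_mul_self_eq (by
      have : n * ‖v‖ ^ 2 - ‖c‖ ^ 2 = n * ‖w‖ ^ 2 := by rw [hw]; field_simp
      rw [this]; positivity) (by positivity)]
    have : ‖z‖ * ‖w‖ * (‖z‖ * ‖w‖) = n * ‖w‖ ^ 2 := by rw [hnn]; ring
    rw [this, hw]; field_simp
  have hD : (2 * inner ℝ a b * n - ‖a‖ ^ 2 * (2 * c.re)) / n ^ 2 =
      2 * inner ℝ a (inner ℂ e w) / n := by
    rw [hew]
    simp only [Complex.inner, Complex.sq_norm, Complex.normSq_apply]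
    simp only [Complex.mul_re, Complex.sub_re, Complex.sub_im, Complex.mul_im, Complex.conj_re,
      Complex.conj_im, Complex.div_ofReal_re, Complex.div_ofReal_im]
    field_simp
    ring
  rw [hD, hsp, abs_div, abs_of_pos hn0, abs_mul, abs_two, mul_div_assoc]
  gcongr
  calc |inner ℝ a (inner ℂ e w)| ≤ ‖a‖ * ‖inner ℂ e w‖ := abs_real_inner_le_norm _ _
    _ ≤ (‖e‖ * ‖z‖) * (‖e‖ * ‖w‖) := by
        gcongr
        · exact norm_inner_le_norm _ _
        · exact norm_inner_le_norm _ _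
    _ ≤ (1 * ‖z‖) * (1 * ‖w‖) := by gcongr
    _ = ‖z‖ * ‖w‖ := by ring

/-- Normalised coordinates are Lipschitz for the intrinsic distance. -/
lemma coordSq_sub_le {e : E3} (he : ‖e‖ ≤ 1) (x y : E3) :
    ENNReal.ofReal (|coordSq e x - coordSq e y| / 2) ≤ intrinsicDist F x y := by
  refine le_dist_of_arc (fun x y => ENNReal.ofReal (|coordSq e x - coordSq e y| / 2))
    (fun x y x' y' hx hy => by rw [coordSq_congr e hx, coordSq_congr e hy]) (fun γ hγ => ?_)
    (fun x y z _ => ?_) x y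
  · have hne : ∀ t ∈ Icc (0 : ℝ) 1, γ t ≠ 0 := fun t ht => (hγ.2 t ht).1
    have hγ1 : ContDiffOn ℝ 1 γ (Icc 0 1) := hγ.1.of_le (by simp)
    have hcd : ContDiffOn ℝ 1 (fun s => coordSq e (γ s)) (Icc 0 1) := by
      unfold coordSq
      refine ContDiffOn.div ((contDiffOn_const.inner ℂ hγ1).norm_sq ℂ) (hγ1.norm_sq ℂ) ?_
      intro t ht
      exact pow_ne_zero _ (norm_ne_zero_iff.2 (hne t ht))
    have h1 := enorm_sub_le_lintegral_deriv_of_contDiffOn_Icc hcd zero_le_one
    have h2 : ∫⁻ t in Icc (0 : ℝ) 1, ‖deriv (fun s => coordSq e (γ s)) t‖ₑ ≤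
        2 * arcLength γ := by
      unfold arcLength
      rw [← lintegral_const_mul' _ _ (by simp)]
      apply lintegral_mono_ae
      rw [← Measure.restrict_congr_set Ioo_ae_eq_Icc]
      filter_upwards [self_mem_ae_restrict measurableSet_Ioo] with t ht
      have hd : HasDerivAt γ (deriv γ t) t :=
        (((hγ1 t ⟨ht.1.le, ht.2.le⟩).contDiffAt (Icc_mem_nhds ht.1 ht.2)).differentiableAt
          one_ne_zero).hasDerivAt
      obtain ⟨D, hD, hD2⟩ := hasDerivAt_coordSq he hd (hne t ⟨ht.1.le, ht.2.le⟩)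
      rw [hD.deriv, Real.enorm_eq_ofReal_abs]
      calc ENNReal.ofReal |D| ≤ ENNReal.ofReal (2 * fsSpeed (γ t) (deriv γ t)) :=
            ENNReal.ofReal_le_ofReal hD2
        _ = 2 * ENNReal.ofReal (fsSpeed (γ t) (deriv γ t)) := by
            rw [ENNReal.ofReal_mul (by norm_num)]; simp
    have h3 := h1.trans h2
    rw [Real.enorm_eq_ofReal_abs, abs_sub_comm] at h3
    rw [ENNReal.ofReal_div_of_pos (by norm_num)]
    simp only [ENNReal.ofReal_ofNat]
    exact ENNReal.div_le_of_le_mul' h3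
  · rw [← ENNReal.ofReal_add (by positivity) (by positivity)]
    apply ENNReal.ofReal_le_ofReal
    have := abs_sub_le (coordSq e x) (coordSq e y) (coordSq e z)
    linarith

lemma continuousOn_coordSq (e : E3) : ContinuousOn (coordSq e) {z | z ≠ 0} := by
  unfold coordSq
  refine ContinuousOn.div (by fun_prop) (by fun_prop) fun z hz => ?_
  exact pow_ne_zero _ (norm_ne_zero_iff.2 hz)

/-- Splitting lemma: a curve from a point above a level to a point below it crosses it. -/
lemma split_level (e : E3) (s : ℝ) {x y : E3} (hx : s ≤ coordSq e x) (hy : coordSq e y ≤ s) :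
    ⨅ (w : E3) (_ : w ∈ cone F ∧ coordSq e w = s),
      intrinsicDist F x w + intrinsicDist F w y ≤ intrinsicDist F x y := by
  classical
  let I : E3 → E3 → ℝ≥0∞ := fun x y => ⨅ (w : E3) (_ : w ∈ cone F ∧ coordSq e w = s),
      intrinsicDist F x w + intrinsicDist F w y
  let g : E3 → E3 → ℝ≥0∞ := fun x y =>
    if s ≤ coordSq e x ∧ coordSq e y ≤ s then I x y else intrinsicDist F x y
  have hI : ∀ x y, intrinsicDist F x y ≤ I x y := fun x y =>
    le_iInf₂ fun w _ => dist_triangle' _ _ _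
  have hgd : ∀ x y, intrinsicDist F x y ≤ g x y := fun x y => by
    simp only [g]; split_ifs
    · exact hI x y
    · exact le_rfl
  have key := le_dist_of_arc (F := F) g (fun x y x' y' hx hy => ?_) (fun γ hγ => ?_)
    (fun x y z _ => ?_) x y
  · simpa [g, hx, hy] using key
  · simp only [g, I, coordSq_congr e hx, coordSq_congr e hy, dist_congr hx hy,
      dist_congr hx rfl, dist_congr rfl hy]
  · simp only [g]
    split_ifs with h
    · have hcont : ContinuousOn (fun t => coordSq e (γ t)) (Icc 0 1) :=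
        (continuousOn_coordSq e).comp hγ.1.continuousOn fun t ht => (hγ.2 t ht).1
      obtain ⟨t, ht, hts⟩ := intermediate_value_Icc' zero_le_one hcont ⟨h.2, h.1⟩
      refine (iInf₂_le (γ t) ⟨hγ.2 t ht, hts⟩).trans ?_
      have s1 : uIcc 0 t ⊆ Icc 0 1 := by rw [uIcc_of_le ht.1]; exact Icc_subset_Icc le_rfl ht.2
      have s2 : uIcc t 1 ⊆ Icc 0 1 := by rw [uIcc_of_le ht.2]; exact Icc_subset_Icc ht.1 le_rfl
      have h1 := dist_le_lintegral (F := F) (hγ.1.mono s1) fun u hu => hγ.2 u (s1 hu)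
      have h2 := dist_le_lintegral (F := F) (hγ.1.mono s2) fun u hu => hγ.2 u (s2 hu)
      refine (add_le_add h1 h2).trans (le_of_eq ?_)
      rw [uIcc_of_le ht.1, uIcc_of_le ht.2, ← Measure.restrict_congr_set Ioc_ae_eq_Icc (s := Ioc t 1),
        ← lintegral_union measurableSet_Ioc, Icc_union_Ioc_eq_Icc ht.1 ht.2]
      · rfl
      · rw [Set.disjoint_left]
        intro u h1 h2
        exact absurd h1.2 (not_le.2 h2.1)
    · exact dist_le_arc hγ
  · by_cases h : s ≤ coordSq e x ∧ coordSq e z ≤ s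
    · have e1 : g x z = I x z := by simp [g, h]
      rw [e1]
      rcases le_total (coordSq e y) s with h' | h'
      · have e2 : g x y = I x y := by simp [g, h, h']
        rw [e2]
        refine le_trans ?_ (add_le_add le_rfl (hgd y z))
        simp only [I]
        rw [← tsub_le_iff_right]
        refine le_iInf₂ fun w hw => ?_
        rw [tsub_le_iff_right]
        refine (iInf₂_le w hw).trans ?_
        rw [add_assoc]
        exact add_le_add le_rfl (dist_triangle' _ _ _)
      · have e2 : g y z = I y z := by simp [g, h, h']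
        rw [e2]
        refine le_trans ?_ (add_le_add (hgd x y) le_rfl)
        simp only [I]
        rw [← tsub_le_iff_left]
        refine le_iInf₂ fun w hw => ?_
        rw [tsub_le_iff_left]
        refine (iInf₂_le w hw).trans ?_
        rw [← add_assoc]
        exact add_le_add (dist_triangle' _ _ _) le_rfl
    · have e1 : g x z = intrinsicDist F x z := by simp only [g, h, if_false]
      rw [e1]
      exact (dist_triangle' x y z).trans (add_le_add (hgd _ _) (hgd _ _))

end Pool.Agent.P.MP_a3b544_ag.PC
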