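import Mathlib

/-! Intrinsic Fubini-Study diameter of smooth curves in the complex projective plane.
A point of projective space is represented by a nonzero vector of `ℂ³`; two vectors represent the
same point when they span the same complex line. A smooth arc in projective space is represented
by a smooth lift to `ℂ³ ∖ 0`. -/

namespace Pool.Agent.P.MP_a3b544_ag.PC

open scoped ContDiff

/-- Nonzero vectors representing the points of the curve `F = 0`. -/
def cone (F : MvPolynomial (Fin 3) ℂ) : Set (EuclideanSpace ℂ (Fin 3)) :=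
  {z | z ≠ 0 ∧ MvPolynomial.eval (fun i => z i) F = 0}

/-- `F = 0` is a smooth plane curve of degree `d`: `F` is a form of degree `d` whose gradient
vanishes at no point of the curve. -/
def IsSmoothCurve (d : ℕ) (F : MvPolynomial (Fin 3) ℂ) : Prop :=
  F.IsHomogeneous d ∧
    ∀ z ∈ cone F, ∃ j : Fin 3, MvPolynomial.eval (fun i => z i) (MvPolynomial.pderiv j F) ≠ 0

/-- Fubini-Study norm of the tangent vector of projective space at `[z]` induced by `v`. -/
noncomputable def fsSpeed (z v : EuclideanSpace ℂ (Fin 3)) : ℝ :=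
  √(‖z‖ ^ 2 * ‖v‖ ^ 2 - ‖∑ i, star (z i) * v i‖ ^ 2) / ‖z‖ ^ 2

/-- Fubini-Study length of the arc `t ↦ [γ t]`, `0 ≤ t ≤ 1`. -/
noncomputable def arcLength (γ : ℝ → EuclideanSpace ℂ (Fin 3)) : ENNReal :=
  ∫⁻ t in Set.Icc (0 : ℝ) 1, ENNReal.ofReal (fsSpeed (γ t) (deriv γ t))

/-- A piecewise smooth path in the curve from `[x]` to `[y]`: smooth arcs `γ 0, …, γ n` in the
curve, each one ending at the point of projective space where the next one starts. -/
def IsPiecewiseSmoothCurve (F : MvPolynomial (Fin 3) ℂ) (x y : EuclideanSpace ℂ (Fin 3)) (n : ℕ)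
    (γ : ℕ → ℝ → EuclideanSpace ℂ (Fin 3)) : Prop :=
  (∀ i ≤ n, ContDiffOn ℝ ∞ (γ i) (Set.Icc 0 1) ∧ ∀ t ∈ Set.Icc (0 : ℝ) 1, γ i t ∈ cone F) ∧
    Submodule.span ℂ {γ 0 0} = Submodule.span ℂ {x} ∧
    Submodule.span ℂ {γ n 1} = Submodule.span ℂ {y} ∧
    ∀ i < n, Submodule.span ℂ {γ i 1} = Submodule.span ℂ {γ (i + 1) 0}

/-- Intrinsic distance in the curve: infimum of the lengths of piecewise smooth paths. -/
noncomputable def intrinsicDist (F : MvPolynomial (Fin 3) ℂ) (x y : EuclideanSpace ℂ (Fin 3)) :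
    ENNReal :=
  ⨅ (n : ℕ) (γ : ℕ → ℝ → EuclideanSpace ℂ (Fin 3)) (_ : IsPiecewiseSmoothCurve F x y n γ),
    ∑ i ∈ Finset.range (n + 1), arcLength (γ i)

/-- Intrinsic diameter of the curve `F = 0`. -/
noncomputable def intrinsicDiam (F : MvPolynomial (Fin 3) ℂ) : ENNReal :=
  ⨆ (x ∈ cone F) (y ∈ cone F), intrinsicDist F x y

/-- Supremum of the intrinsic diameters of the smooth plane curves of degree `d`. -/
noncomputable def maxDiam (d : ℕ) : ENNReal :=
  ⨆ (F : MvPolynomial (Fin 3) ℂ) (_ : IsSmoothCurve d F), intrinsicDiam F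

end Pool.Agent.P.MP_a3b544_ag.PC
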