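import Pool.Agent.P.MP_a3b544_ag.PC.Basic

/-! Polynomial facts, the implicit function theorem, and continuity of the intrinsic distance. -/

namespace Pool.Agent.P.MP_a3b544_ag.PC

open scoped ContDiff ENNReal Topology Polynomial
open Set MeasureTheory Submodule Filter

variable {F : MvPolynomial (Fin 3) ℂ}

/-- Evaluation of a polynomial at a vector. -/
noncomputable def ev (F : MvPolynomial (Fin 3) ℂ) (z : E3) : ℂ :=
  MvPolynomial.eval (fun i => z i) F

lemma mem_cone {z : E3} : z ∈ cone F ↔ z ≠ 0 ∧ ev F z = 0 := Iff.rfl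

lemma analyticAt_ev (F : MvPolynomial (Fin 3) ℂ) (z : E3) : AnalyticAt ℂ (ev F) z :=
  AnalyticOnNhd.eval_continuousLinearMap' (𝕜 := ℂ)
    (fun i : Fin 3 => (EuclideanSpace.proj i : E3 →L[ℂ] ℂ)) F z (mem_univ _)

lemma continuous_ev (F : MvPolynomial (Fin 3) ℂ) : Continuous (ev F) :=
  continuous_iff_continuousAt.2 fun z => (analyticAt_ev F z).continuousAt

lemma hasDerivAt_ev (F : MvPolynomial (Fin 3) ℂ) (z : E3) (j : Fin 3) :
    HasDerivAt (fun s : ℂ => ev F (z + s • EuclideanSpace.single j (1 : ℂ)))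
      (ev (MvPolynomial.pderiv j F) z) 0 := by
  unfold ev
  induction F using MvPolynomial.induction_on with
  | C a => simpa using hasDerivAt_const (0 : ℂ) a
  | add p q hp hq => simp only [map_add]; exact hp.add hq
  | mul_X p i hp =>
    have h1 : HasDerivAt (fun s : ℂ => (z + s • EuclideanSpace.single j (1 : ℂ) : E3) i)
        ((Pi.single j 1 : Fin 3 → ℂ) i) 0 := by
      have := ((hasDerivAt_id (0 : ℂ)).mul_const ((Pi.single j 1 : Fin 3 → ℂ) i)).const_add (z i)
      simpa [Pi.single_apply] using this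
    have h2 := hp.mul h1
    simp only [map_mul, MvPolynomial.eval_X]
    refine HasDerivAt.congr_deriv h2 ?_
    by_cases hij : i = j
    · subst hij; simp; ring
    · simp [MvPolynomial.pderiv_X_of_ne hij, Pi.single_eq_of_ne hij]; ring

section Line

variable {σ A : Type*} [CommRing A] [Algebra ℂ A]

omit [Algebra ℂ A] in
lemma linePoly_aux (s : Finset σ) (m : σ → ℕ) (a b : σ → A) :
    (∏ i ∈ s, (Polynomial.C (a i) + Polynomial.X * Polynomial.C (b i)) ^ m i).natDegree ≤
        ∑ i ∈ s, m i ∧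
      (∏ i ∈ s, (Polynomial.C (a i) + Polynomial.X * Polynomial.C (b i)) ^ m i).coeff
        (∑ i ∈ s, m i) = ∏ i ∈ s, b i ^ m i := by
  classical
  have h1 : ∀ i, (Polynomial.C (a i) + Polynomial.X * Polynomial.C (b i)).natDegree ≤ 1 := by
    intro i; compute_degree
  have h2 : ∀ i, ((Polynomial.C (a i) + Polynomial.X * Polynomial.C (b i)) ^ m i).natDegree ≤
      m i := fun i => by simpa using Polynomial.natDegree_pow_le_of_le (m i) (h1 i)
  induction s using Finset.induction_on with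
  | empty => simp
  | insert j s hj ih =>
    rw [Finset.prod_insert hj, Finset.sum_insert hj, Finset.prod_insert hj]
    refine ⟨Polynomial.natDegree_mul_le.trans (add_le_add (h2 j) ih.1), ?_⟩
    rw [Polynomial.coeff_mul_add_eq_of_natDegree_le (h2 j) ih.1, ih.2]
    congr 1
    have := Polynomial.coeff_pow_of_natDegree_le (m := m j) (h1 j)
    simpa [Polynomial.coeff_X, Polynomial.coeff_C] using this

lemma linePoly_spec {G : MvPolynomial σ ℂ} {d : ℕ} (hG : G.IsHomogeneous d) (a b : σ → A) :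
    (MvPolynomial.aeval (fun i => Polynomial.C (a i) + Polynomial.X * Polynomial.C (b i)) G :
        A[X]).natDegree ≤ d ∧
      (MvPolynomial.aeval (fun i => Polynomial.C (a i) + Polynomial.X * Polynomial.C (b i)) G :
        A[X]).coeff d = MvPolynomial.aeval b G := by
  rw [MvPolynomial.aeval_def, MvPolynomial.eval₂_eq, MvPolynomial.aeval_def,
    MvPolynomial.eval₂_eq]
  constructor
  · refine Polynomial.natDegree_sum_le_of_forall_le _ _ fun m hm => ?_
    rw [Polynomial.algebraMap_apply]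
    refine (Polynomial.natDegree_C_mul_le _ _).trans ?_
    rw [hG.degree_eq_sum_deg_support hm]
    exact (linePoly_aux m.support m a b).1
  · rw [Polynomial.finsetSum_coeff]
    refine Finset.sum_congr rfl fun m hm => ?_
    rw [Polynomial.algebraMap_apply, Polynomial.coeff_C_mul, hG.degree_eq_sum_deg_support hm,
      (linePoly_aux m.support m a b).2]

end Line

lemma ev_smul {d : ℕ} (hF : F.IsHomogeneous d) (c : ℂ) (z : E3) :
    ev F (c • z) = c ^ d * ev F z := by
  unfold ev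
  rw [MvPolynomial.eval_eq, MvPolynomial.eval_eq, Finset.mul_sum]
  refine Finset.sum_congr rfl fun m hm => ?_
  simp only [PiLp.smul_apply, smul_eq_mul, mul_pow, Finset.prod_mul_distrib,
    Finset.prod_pow_eq_pow_sum]
  rw [← hF.degree_eq_sum_deg_support hm]
  ring

lemma smul_mem_cone {d : ℕ} (hF : F.IsHomogeneous d) {c : ℂ} (hc : c ≠ 0) {z : E3}
    (hz : z ∈ cone F) : c • z ∈ cone F :=
  ⟨smul_ne_zero hc hz.1, by
    change ev F (c • z) = 0
    rw [ev_smul hF, (mem_cone.1 hz).2, mul_zero]⟩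

/-- Restriction of a form to an affine line is a polynomial of degree at most `d`. -/
lemma exists_linePoly {d : ℕ} (hF : F.IsHomogeneous d) (a b : E3) :
    ∃ Q : ℂ[X], Q.natDegree ≤ d ∧ Q.coeff d = ev F b ∧ ∀ T : ℂ, Q.eval T = ev F (a + T • b) := by
  refine ⟨_, (linePoly_spec hF (fun i => a i) (fun i => b i)).1,
    (linePoly_spec hF (fun i => a i) (fun i => b i)).2, fun T => ?_⟩
  rw [← Polynomial.coe_aeval_eq_eval, ← AlgHom.comp_apply, MvPolynomial.comp_aeval]
  unfold ev
  rw [MvPolynomial.aeval_eq_eval]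
  have : (fun i => (Polynomial.aeval T) (Polynomial.C (a i) + Polynomial.X * Polynomial.C (b i))) =
      fun i => (a + T • b) i := by
    ext i
    simp only [map_add, Polynomial.aeval_C, map_mul, Polynomial.aeval_X, PiLp.add_apply,
      PiLp.smul_apply, smul_eq_mul, Algebra.algebraMap_self, RingHom.id_apply]
  rw [this]

/-- Factorisation along a line. -/
lemma exists_roots {d : ℕ} (hF : F.IsHomogeneous d) (a : E3) {b : E3} (hb : ev F b ≠ 0) :
    ∃ r : Fin d → ℂ, ∀ T : ℂ, ev F (a + T • b) = ev F b * ∏ i, (T - r i) := by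
  obtain ⟨Q, hQ1, hQ2, hQ3⟩ := exists_linePoly hF a b
  have hdeg : Q.natDegree = d :=
    Polynomial.natDegree_eq_of_le_of_coeff_ne_zero hQ1 (by rwa [hQ2])
  have hsplit : Q.Splits := IsAlgClosed.splits Q
  have hcard : Q.roots.card = d := by rw [← hdeg]; exact hsplit.natDegree_eq_card_roots.symm
  obtain ⟨l, hl⟩ := Quot.exists_rep Q.roots
  have hl' : (l : Multiset ℂ) = Q.roots := hl
  have hlen : l.length = d := by rw [← hcard, ← hl', Multiset.coe_card]
  subst hlen
  refine ⟨l.get, fun T => ?_⟩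
  rw [← hQ3, hsplit.eval_eq_prod_roots, ← hl', Polynomial.leadingCoeff, hdeg, hQ2]
  congr 1
  rw [Multiset.map_coe, Multiset.prod_coe, ← List.prod_ofFn]
  congr 1
  conv_lhs => rw [← List.ofFn_get l, List.map_ofFn]
  rfl

/-- Analytic implicit function theorem for one equation. -/
lemma exists_implicit {X : Type*} [NormedAddCommGroup X] [NormedSpace ℂ X] [CompleteSpace X]
    {h : X × ℂ → ℂ} {u : X × ℂ} (hh : AnalyticAt ℂ h u) {c : ℂ}
    (hc : HasDerivAt (fun s => h (u.1, s)) c u.2) (hc0 : c ≠ 0) :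
    ∃ ψ : X → ℂ, AnalyticAt ℂ ψ u.1 ∧ ∀ᶠ v in 𝓝 u, h v = h u ↔ ψ v.1 = v.2 := by
  have cdf : ContDiffAt ℂ ω h u := hh.contDiffAt
  have hL : fderiv ℂ h u ∘L ContinuousLinearMap.inr ℂ X ℂ =
      ContinuousLinearMap.toSpanSingleton ℂ c := by
    have h1 : HasFDerivAt (fun s => h (u.1, s))
        (fderiv ℂ h u ∘L ContinuousLinearMap.inr ℂ X ℂ) u.2 :=
      HasFDerivAt.comp u.2 (g := h) (f := fun s => (u.1, s)) hh.differentiableAt.hasFDerivAt
        (hasFDerivAt_prodMk_right u.1 u.2)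
    exact h1.unique hc.hasFDerivAt
  have hinv : (fderiv ℂ h u ∘L ContinuousLinearMap.inr ℂ X ℂ).IsInvertible := by
    rw [hL]
    refine ContinuousLinearMap.IsInvertible.of_inverse
      (g := ContinuousLinearMap.toSpanSingleton ℂ c⁻¹) ?_ ?_ <;> ext <;> simp [hc0]
  exact ⟨cdf.implicitFunction (by simp) hinv,
    (cdf.contDiffAt_implicitFunction (by simp) hinv).analyticAt,
    cdf.eventually_apply_eq_iff_implicitFunction (by simp) hinv⟩

/-- Near a smooth point, nearby points of the surface are intrinsically near. -/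
lemma eventually_dist_lt {z : E3} (hz : z ∈ cone F)
    (hs : ∃ j : Fin 3, ev (MvPolynomial.pderiv j F) z ≠ 0) {ε : ℝ≥0∞} (hε : 0 < ε) :
    ∀ᶠ w in 𝓝[cone F] z, intrinsicDist F z w < ε := by
  obtain ⟨j, hj⟩ := hs
  set e : E3 := EuclideanSpace.single j (1 : ℂ) with he
  let h : E3 × ℂ → ℂ := fun p => ev F (p.1 + p.2 • e)
  have hh : AnalyticAt ℂ h (z, 0) :=
    (analyticAt_ev F _).fun_comp_of_eq (analyticAt_fst.add (analyticAt_snd.smul analyticAt_const)) rfl
  obtain ⟨ψ, hψ, hev⟩ := exists_implicit hh (hasDerivAt_ev F z j) hj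
  have h0 : h (z, 0) = 0 := by simpa [h] using (mem_cone.1 hz).2
  rw [h0] at hev
  have hψz : ψ z = 0 := hev.self_of_nhds.1 h0
  let Φ : E3 → E3 := fun y => y + ψ y • e
  have hΦ : AnalyticAt ℂ Φ z := analyticAt_id.add (hψ.smul analyticAt_const)
  have hΦz : Φ z = z := by simp [Φ, hψz]
  have hzn : 0 < ‖z‖ := norm_pos_iff.2 hz.1
  -- a ball on which everything is controlled
  set K : ℝ := ‖fderiv ℂ Φ z‖ + 1 with hK
  have e1 : ∀ᶠ y in 𝓝 z, AnalyticAt ℂ Φ y := hΦ.eventually_analyticAt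
  have e2 : ∀ᶠ y in 𝓝 z, ‖fderiv ℂ Φ y‖ < K :=
    (hΦ.fderiv.continuousAt.norm).eventually (gt_mem_nhds (by simp [hK]))
  have e3 : ∀ᶠ y in 𝓝 z, ‖z‖ / 2 < ‖Φ y‖ :=
    (hΦ.continuousAt.norm).eventually (lt_mem_nhds (by simp only [hΦz]; linarith))
  have e4 : ∀ᶠ y in 𝓝 z, ev F (Φ y) = 0 := by
    have ht : Tendsto (fun y => (y, ψ y)) (𝓝 z) (𝓝 (z, 0)) := by
      rw [← hψz]; exact continuousAt_id.prodMk hψ.continuousAt
    filter_upwards [ht.eventually hev] with y hy using hy.2 rfl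
  have e5 : ∀ᶠ y in 𝓝 z, ev F y = 0 → Φ y = y := by
    have ht : Tendsto (fun y => (y, (0 : ℂ))) (𝓝 z) (𝓝 (z, 0)) :=
      continuousAt_id.prodMk continuousAt_const
    filter_upwards [ht.eventually hev] with y hy hy0
    have : ψ y = 0 := hy.1 (by simpa [h] using hy0)
    simp [Φ, this]
  obtain ⟨δ, hδ, hball⟩ := Metric.eventually_nhds_iff_ball.1 (e1.and (e2.and (e3.and e4)))
  have e6 : ∀ᶠ w in 𝓝 z, ENNReal.ofReal (K * ‖w - z‖ / (‖z‖ / 2)) < ε := by
    have : ContinuousAt (fun w : E3 => ENNReal.ofReal (K * ‖w - z‖ / (‖z‖ / 2))) z :=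
      ENNReal.continuous_ofReal.continuousAt.comp (by fun_prop)
    exact this.eventually (gt_mem_nhds (by simpa using hε))
  filter_upwards [self_mem_nhdsWithin, mem_nhdsWithin_of_mem_nhds e5,
    mem_nhdsWithin_of_mem_nhds e6, mem_nhdsWithin_of_mem_nhds (Metric.ball_mem_nhds z hδ)]
    with w hw hw5 hw6 hwb
  let L : ℝ → E3 := fun t => z + t • (w - z)
  have hL : ∀ t ∈ Icc (0 : ℝ) 1, L t ∈ Metric.ball z δ := fun t ht =>
    (convex_ball z δ).add_smul_sub_mem (Metric.mem_ball_self hδ) hwb ht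
  have hLd : ∀ t, HasDerivAt L (w - z) t := fun t => by
    simpa [L] using ((hasDerivAt_id t).smul_const (w - z)).const_add z
  have harc : IsArc F (Φ ∘ L) := by
    refine ⟨fun t ht => ?_, fun t ht => ⟨?_, (hball _ (hL t ht)).2.2.2⟩⟩
    · have h1 : ContDiffAt ℝ ∞ Φ (L t) :=
        ((hball _ (hL t ht)).1.contDiffAt (n := ∞)).restrict_scalars ℝ
      exact (h1.comp t (by simp only [L]; fun_prop)).contDiffWithinAt
    · have := (hball _ (hL t ht)).2.2.1
      exact norm_pos_iff.1 (lt_trans (by positivity) this)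
  have h1 := dist_le_arc harc
  have h2 : (Φ ∘ L) 0 = z := by simp [L, hΦz]
  have h3 : (Φ ∘ L) 1 = w := by simp [L, hw5 (mem_cone.1 hw).2]
  rw [h2, h3] at h1
  refine lt_of_le_of_lt (h1.trans ?_) hw6
  unfold arcLength
  calc ∫⁻ t in Icc (0 : ℝ) 1, ENNReal.ofReal (fsSpeed ((Φ ∘ L) t) (deriv (Φ ∘ L) t))
      ≤ ∫⁻ _ in Icc (0 : ℝ) 1, ENNReal.ofReal (K * ‖w - z‖ / (‖z‖ / 2)) := by
        refine setLIntegral_mono' measurableSet_Icc fun t ht => ENNReal.ofReal_le_ofReal ?_
        obtain ⟨a1, a2, a3, -⟩ := hball _ (hL t ht)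
        have hd : HasDerivAt (Φ ∘ L) (fderiv ℂ Φ (L t) (w - z)) t :=
          (a1.differentiableAt.hasFDerivAt.restrictScalars ℝ).comp_hasDerivAt t (hLd t)
        rw [hd.deriv]
        refine (fsSpeed_le _ _ (harc.2 t ht).1).trans ?_
        have : ‖fderiv ℂ Φ (L t) (w - z)‖ ≤ K * ‖w - z‖ :=
          (ContinuousLinearMap.le_opNorm _ _).trans (by gcongr)
        exact div_le_div₀ (by positivity) this (by positivity) a3.le
    _ = ENNReal.ofReal (K * ‖w - z‖ / (‖z‖ / 2)) := by simp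

/-- The intrinsic distance from a point is continuous on a smooth surface. -/
lemma continuousOn_dist {d : ℕ} (hF : IsSmoothCurve d F) (p : E3) :
    ContinuousOn (intrinsicDist F p) (cone F) := by
  intro z hz
  have hev : ∀ ε : ℝ≥0∞, 0 < ε → ∀ᶠ w in 𝓝[cone F] z, intrinsicDist F z w < ε :=
    fun ε hε => eventually_dist_lt hz (hF.2 z hz) hε
  have ht : Tendsto (intrinsicDist F z) (𝓝[cone F] z) (𝓝 0) := by
    rw [ENNReal.tendsto_nhds_zero]
    exact fun ε hε => (hev ε hε).mono fun _ h => h.le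
  have h1 : Tendsto (fun w => intrinsicDist F p z + intrinsicDist F z w) (𝓝[cone F] z)
      (𝓝 (intrinsicDist F p z)) := by
    simpa using tendsto_const_nhds.add ht
  have h2 : Tendsto (fun w => intrinsicDist F p z - intrinsicDist F z w) (𝓝[cone F] z)
      (𝓝 (intrinsicDist F p z)) := by
    simpa using ENNReal.Tendsto.sub tendsto_const_nhds ht (Or.inr (by simp))
  refine tendsto_of_tendsto_of_tendsto_of_le_of_le h2 h1 (fun w => ?_)
    (fun w => dist_triangle' _ _ _)
  rw [tsub_le_iff_right, dist_comm' z w]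
  exact dist_triangle' _ _ _

end Pool.Agent.P.MP_a3b544_ag.PC
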