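import Pool.Agent.P.MP_a3b544_ag.PC.Local

/-! The sharp lower bound for plane curves. -/

namespace Pool.Agent.P.MP_a3b544_ag.PC

open scoped ContDiff ENNReal Topology Polynomial
open Set MeasureTheory Submodule Filter MvPolynomial

/-- Standard basis vectors. -/
noncomputable def ee (i : Fin 3) : E3 := EuclideanSpace.single i (1 : ℂ)

lemma norm_ee (i : Fin 3) : ‖ee i‖ = 1 := by simp [ee]

lemma coordSq_ee (i : Fin 3) (z : E3) : coordSq (ee i) z = ‖z i‖ ^ 2 / ‖z‖ ^ 2 := by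
  simp [coordSq, ee, EuclideanSpace.inner_single_left]

lemma sum_coordSq {z : E3} (hz : z ≠ 0) :
    coordSq (ee 0) z + coordSq (ee 1) z + coordSq (ee 2) z = 1 := by
  simp only [coordSq_ee]
  have h : ‖z‖ ^ 2 ≠ 0 := pow_ne_zero _ (norm_ne_zero_iff.2 hz)
  field_simp
  rw [EuclideanSpace.norm_sq_eq, Fin.sum_univ_three]

/-- The coordinate attached to the level `k`. -/
def xi (k : ℕ) : Fin 3 := ⟨k % 2, by omega⟩

lemma sum_coordSq_xi {z : E3} (hz : z ≠ 0) (k : ℕ) :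
    coordSq (ee (xi k)) z + coordSq (ee (xi (k + 1))) z + coordSq (ee 2) z = 1 := by
  rw [← sum_coordSq hz]
  have : k % 2 = 0 ∨ k % 2 = 1 := by omega
  rcases this with h | h
  · have h0 : xi k = 0 := Fin.ext (by simp [xi, h])
    have h1 : xi (k + 1) = 1 := Fin.ext (by simp [xi]; omega)
    rw [h0, h1]
  · have h0 : xi k = 1 := Fin.ext (by simp [xi, h])
    have h1 : xi (k + 1) = 0 := Fin.ext (by simp [xi]; omega)
    rw [h0, h1]; ring

/-- The zigzag form. -/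
noncomputable def zigzag (ε : ℝ) (d : ℕ) : MvPolynomial (Fin 3) ℂ :=
  ∑ k ∈ Finset.Icc 1 d, C ((ε : ℂ) ^ (k ^ 2)) * (X (xi k) ^ k * X 2 ^ (d - k))

/-- Monomials used for perturbation. -/
noncomputable def pm (d : ℕ) (p : Fin 3 × Fin 2) : MvPolynomial (Fin 3) ℂ :=
  X p.1 * X p.2.castSucc ^ (d - 1)

/-- A perturbed form. -/
noncomputable def pert (G : MvPolynomial (Fin 3) ℂ) (d : ℕ) (c : Fin 3 × Fin 2 → ℂ) :
    MvPolynomial (Fin 3) ℂ := G + ∑ p, C (c p) * pm d p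

lemma zigzag_hom (ε : ℝ) (d : ℕ) : (zigzag ε d).IsHomogeneous d := by
  refine IsHomogeneous.sum _ _ _ fun k hk => IsHomogeneous.C_mul ?_ _
  have := (isHomogeneous_X_pow (R := ℂ) (xi k) k).mul (isHomogeneous_X_pow (2 : Fin 3) (d - k))
  rwa [Nat.add_sub_cancel' (Finset.mem_Icc.1 hk).2] at this

lemma pert_hom {G : MvPolynomial (Fin 3) ℂ} {d : ℕ} (hd : 1 ≤ d) (hG : G.IsHomogeneous d)
    (c : Fin 3 × Fin 2 → ℂ) : (pert G d c).IsHomogeneous d := by
  refine hG.add (IsHomogeneous.sum _ _ _ fun p _ => IsHomogeneous.C_mul ?_ _)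
  have := (isHomogeneous_X ℂ p.1).mul (isHomogeneous_X_pow (p.2.castSucc) (d - 1))
  rwa [Nat.add_sub_cancel' hd] at this

lemma eval_pert (G : MvPolynomial (Fin 3) ℂ) (d : ℕ) (c : Fin 3 × Fin 2 → ℂ) (z : Fin 3 → ℂ) :
    eval z (pert G d c) = eval z G + ∑ p, c p * eval z (pm d p) := by
  simp [pert]

lemma eval_pderiv_pert (G : MvPolynomial (Fin 3) ℂ) (d : ℕ) (c : Fin 3 × Fin 2 → ℂ)
    (z : Fin 3 → ℂ) (i : Fin 3) :
    eval z (pderiv i (pert G d c)) =
      eval z (pderiv i G) + ∑ p, c p * eval z (pderiv i (pm d p)) := by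
  simp [pert, map_sum]

lemma contDiff_eval (Q : MvPolynomial (Fin 3) ℂ) :
    ContDiff ℝ 1 (fun z : Fin 3 → ℂ => eval z Q) := by
  have : ContDiff ℂ 1 (fun z : Fin 3 → ℂ => eval z Q) :=
    (AnalyticOnNhd.eval_mvPolynomial Q).contDiff
  exact this.restrict_scalars ℝ

/-- The parameters for which the perturbed form is singular at a point of the chart `j`. -/
def badSet (G : MvPolynomial (Fin 3) ℂ) (d : ℕ) (j : Fin 2) : Set (Fin 3 × Fin 2 → ℂ) :=
  {c | ∃ z : Fin 3 → ℂ, z j.castSucc = 1 ∧ eval z (pert G d c) = 0 ∧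
    ∀ i, eval z (pderiv i (pert G d c)) = 0}

lemma card_aux : ∀ j : Fin 2, Fintype.card {p : Fin 3 × Fin 2 // p.2 ≠ j} = 3 := by decide

lemma dimH_badSet (G : MvPolynomial (Fin 3) ℂ) (d : ℕ) (j : Fin 2) :
    dimH (badSet G d j) ≤ 10 := by
  classical
  let Z : ({i : Fin 3 // i ≠ j.castSucc} → ℂ) → Fin 3 → ℂ :=
    fun y i => if h : i = j.castSucc then 1 else y ⟨i, h⟩
  let C0 : ({p : Fin 3 × Fin 2 // p.2 ≠ j} → ℂ) → Fin 3 × Fin 2 → ℂ :=
    fun c p => if h : p.2 = j then 0 else c ⟨p, h⟩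
  have hZ : ContDiff ℝ 1 Z := by
    refine contDiff_pi.2 fun i => ?_
    by_cases h : i = j.castSucc <;> simp only [Z, h, dite_true, dite_false] <;> fun_prop
  have hC : ContDiff ℝ 1 C0 := by
    refine contDiff_pi.2 fun p => ?_
    by_cases h : p.2 = j <;> simp only [C0, h, dite_true, dite_false] <;> fun_prop
  let Θ : ({i : Fin 3 // i ≠ j.castSucc} → ℂ) × ({p : Fin 3 × Fin 2 // p.2 ≠ j} → ℂ) →
      Fin 3 × Fin 2 → ℂ := fun q p =>
    if p.2 = j then
      (if p.1 = j.castSucc then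
        -eval (Z q.1) (pert G d (C0 q.2)) + ∑ i ∈ Finset.univ.erase j.castSucc,
          eval (Z q.1) (pderiv i (pert G d (C0 q.2))) * Z q.1 i
      else -eval (Z q.1) (pderiv p.1 (pert G d (C0 q.2))))
    else C0 q.2 p
  have hE : ∀ Q : MvPolynomial (Fin 3) ℂ, ContDiff ℝ 1
      (fun q : ({i : Fin 3 // i ≠ j.castSucc} → ℂ) × ({p : Fin 3 × Fin 2 // p.2 ≠ j} → ℂ) =>
        eval (Z q.1) Q) := fun Q => (contDiff_eval Q).comp (hZ.comp contDiff_fst)
  have hCp : ∀ p, ContDiff ℝ 1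
      (fun q : ({i : Fin 3 // i ≠ j.castSucc} → ℂ) × ({p : Fin 3 × Fin 2 // p.2 ≠ j} → ℂ) =>
        C0 q.2 p) := fun p => (contDiff_pi.1 hC p).comp contDiff_snd
  have hZi : ∀ i, ContDiff ℝ 1
      (fun q : ({i : Fin 3 // i ≠ j.castSucc} → ℂ) × ({p : Fin 3 × Fin 2 // p.2 ≠ j} → ℂ) =>
        Z q.1 i) := fun i => (contDiff_pi.1 hZ i).comp contDiff_fst
  have hP : ContDiff ℝ 1
      (fun q : ({i : Fin 3 // i ≠ j.castSucc} → ℂ) × ({p : Fin 3 × Fin 2 // p.2 ≠ j} → ℂ) =>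
        eval (Z q.1) (pert G d (C0 q.2))) := by
    simp only [eval_pert]
    exact (hE _).add (ContDiff.sum fun p _ => (hCp p).mul (hE _))
  have hD : ∀ i, ContDiff ℝ 1
      (fun q : ({i : Fin 3 // i ≠ j.castSucc} → ℂ) × ({p : Fin 3 × Fin 2 // p.2 ≠ j} → ℂ) =>
        eval (Z q.1) (pderiv i (pert G d (C0 q.2)))) := by
    intro i
    simp only [eval_pderiv_pert]
    exact (hE _).add (ContDiff.sum fun p _ => (hCp p).mul (hE _))
  have hΘ : ContDiff ℝ 1 Θ := by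
    refine contDiff_pi.2 fun p => ?_
    simp only [Θ]
    split_ifs
    · exact hP.neg.add (ContDiff.sum fun i _ => (hD i).mul (hZi i))
    · exact (hD _).neg
    · exact hCp p
  have hsub : badSet G d j ⊆ range Θ := by
    rintro c ⟨z, hz1, hz2, hz3⟩
    refine ⟨(fun i => z i, fun p => c p), ?_⟩
    have eZ : Z (fun i => z i) = z := by
      ext i; simp only [Z]; split_ifs with h
      · rw [h, hz1]
      · rfl
    set c0 := C0 (fun p => c p) with hc0
    have hsplit : ∀ M : Fin 3 × Fin 2 → ℂ,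
        ∑ p, c p * M p = ∑ p, c0 p * M p + ∑ i, c (i, j) * M (i, j) := by
      intro M
      have : ∑ i, c (i, j) * M (i, j) = ∑ p : Fin 3 × Fin 2, (if p.2 = j then c p else 0) * M p := by
        rw [Fintype.sum_prod_type]
        simp
      rw [this, ← Finset.sum_add_distrib]
      refine Finset.sum_congr rfl fun p _ => ?_
      simp only [hc0, C0]
      split_ifs <;> simp
    have k1 : ∀ i, i ≠ j.castSucc → eval z (pderiv i (pert G d c0)) = -c (i, j) := by
      intro i hi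
      have h := hz3 i
      rw [eval_pderiv_pert, hsplit, ← add_assoc, ← eval_pderiv_pert] at h
      have : ∑ i', c (i', j) * eval z (pderiv i (pm d (i', j))) = c (i, j) := by
        rw [Finset.sum_eq_single i]
        · simp [pm, pderiv_X_of_ne hi.symm, hz1]
        · intro i' _ hi'
          simp [pm, pderiv_X_of_ne hi.symm, pderiv_X_of_ne hi']
        · simp
      rw [this] at h
      exact eq_neg_of_add_eq_zero_left h
    have k2 : eval z (pert G d c0) + ∑ i, c (i, j) * z i = 0 := by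
      have h := hz2
      rw [eval_pert, hsplit, ← add_assoc, ← eval_pert] at h
      simpa [pm, hz1] using h
    ext ⟨i, j'⟩
    simp only [Θ, eZ, ← hc0]
    split_ifs with h1 h2
    · subst h1 h2
      rw [← Finset.add_sum_erase _ _ (Finset.mem_univ j'.castSucc), hz1, mul_one] at k2
      rw [Finset.sum_congr rfl fun i hi => by rw [k1 i (Finset.ne_of_mem_erase hi)]]
      simp only [neg_mul, Finset.sum_neg_distrib]
      linear_combination -k2
    · subst h1
      rw [k1 i h2, neg_neg]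
    · simp [hc0, C0, h1]
  refine (dimH_mono hsub).trans (hΘ.dimH_range_le.trans (le_of_eq ?_))
  rw [Module.finrank_prod, Module.finrank_pi_fintype, Module.finrank_pi_fintype]
  simp only [Complex.finrank_real_complex, Finset.sum_const, Finset.card_univ, smul_eq_mul]
  have c1 : Fintype.card {i : Fin 3 // i ≠ j.castSucc} = 2 := by simp
  have c2 : Fintype.card {p : Fin 3 × Fin 2 // p.2 ≠ j} = 3 := card_aux j
  rw [c1, c2]
  norm_num

lemma exists_good_param (G : MvPolynomial (Fin 3) ℂ) (d : ℕ) {η : ℝ} (hη : 0 < η) :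
    ∃ c : Fin 3 × Fin 2 → ℂ, ‖c‖ < η ∧ ∀ j, c ∉ badSet G d j := by
  have h : dimH (⋃ j, badSet G d j) < Module.finrank ℝ (Fin 3 × Fin 2 → ℂ) := by
    rw [dimH_iUnion, Module.finrank_pi_fintype]
    refine lt_of_le_of_lt (iSup_le fun j => dimH_badSet G d j) ?_
    simp only [Complex.finrank_real_complex, Finset.sum_const, Finset.card_univ, smul_eq_mul,
      Fintype.card_prod, Fintype.card_fin]
    norm_num
  obtain ⟨c, hc1, hc2⟩ := (dense_compl_of_dimH_lt_finrank h).exists_mem_open Metric.isOpen_ball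
    ⟨0, Metric.mem_ball_self hη⟩
  exact ⟨c, by simpa using hc2, fun j hj => hc1 (mem_iUnion.2 ⟨j, hj⟩)⟩

lemma smooth_pert {ε : ℝ} (hε : 0 < ε) {d : ℕ} (hd : 3 ≤ d) {c : Fin 3 × Fin 2 → ℂ}
    (hc : ∀ j, c ∉ badSet (zigzag ε d) d j) : IsSmoothCurve d (pert (zigzag ε d) d c) := by
  have hom := pert_hom (by omega) (zigzag_hom ε d) c
  refine ⟨hom, fun z hz => ?_⟩
  by_contra hcon
  push Not at hcon
  by_cases h : ∃ j : Fin 2, z j.castSucc ≠ 0
  · obtain ⟨j, hj⟩ := h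
    refine hc j ⟨fun i => ((z j.castSucc)⁻¹ • z) i, by simp [hj], ?_, fun i => ?_⟩
    · exact (smul_mem_cone hom (inv_ne_zero hj) hz).2
    · have := ev_smul (hom.pderiv (i := i)) (z j.castSucc)⁻¹ z
      unfold ev at this
      rw [this, hcon i, mul_zero]
  · push Not at h
    have h3 : z 2 ≠ 0 := by
      intro h3
      apply hz.1
      ext i
      fin_cases i
      · exact h 0
      · exact h 1
      · exact h3
    have h1 := hcon 1
    rw [eval_pderiv_pert] at h1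
    have e1 : ∀ p, eval (fun i => z i) (pderiv 1 (pm d p)) = 0 := by
      intro p
      have a1 : d - 1 ≠ 0 := by omega
      have a2 : d - 1 - 1 ≠ 0 := by omega
      simp [pm, h p.2, a1, a2]
    have hxi : ∀ k, z (xi k) = 0 := fun k => h ⟨k % 2, by omega⟩
    have e2 : eval (fun i => z i) (pderiv 1 (zigzag ε d)) = ε * z 2 ^ (d - 1) := by
      simp only [zigzag, map_sum, pderiv_C_mul]
      rw [Finset.sum_eq_single 1]
      · have : xi 1 = 1 := rfl
        have h31 : (2 : Fin 3) ≠ 1 := by decide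
        simp [this, pderiv_X_of_ne h31]
      · intro k hk hk1
        have a0 := (Finset.mem_Icc.1 hk).1
        have a1 : k ≠ 0 := by omega
        have a2 : k - 1 ≠ 0 := by omega
        simp [hxi k, a2, a1]
      · intro h1; exact absurd (Finset.mem_Icc.2 ⟨le_rfl, by omega⟩) h1
    simp [e1, e2, h3, hε.ne'] at h1

/-- A form of positive degree has a nontrivial zero on every line. -/
lemma exists_zero_on_line {F : MvPolynomial (Fin 3) ℂ} {d : ℕ} (hd : 1 ≤ d)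
    (hF : F.IsHomogeneous d) (i j : Fin 3) (hij : i ≠ j) :
    ∃ z ∈ cone F, ∀ k, k ≠ i → k ≠ j → z k = 0 := by
  by_cases h : ev F (ee j) = 0
  · refine ⟨ee j, ⟨?_, h⟩, fun k _ hk => by simp [ee, hk]⟩
    rw [← norm_ne_zero_iff, norm_ee]; exact one_ne_zero
  · obtain ⟨r, hr⟩ := exists_roots hF (ee i) h
    refine ⟨ee i + r ⟨0, hd⟩ • ee j, ⟨fun h0 => ?_, ?_⟩, fun k hk hk' => by simp [ee, hk, hk']⟩
    · have := congrArg (fun z : E3 => z i) h0
      simp [ee, hij] at this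
    · change ev F _ = 0
      rw [hr, Finset.prod_eq_zero (Finset.mem_univ ⟨0, hd⟩) (sub_self _), mul_zero]

lemma le_maxDiam {F : MvPolynomial (Fin 3) ℂ} {d : ℕ} (hF : IsSmoothCurve d F) {x y : E3}
    (hx : x ∈ cone F) (hy : y ∈ cone F) : intrinsicDist F x y ≤ maxDiam d :=
  le_iSup₂_of_le F hF (le_iSup₂_of_le x hx (le_iSup₂_of_le y hy le_rfl))

lemma low_deriv {e : E3} (he : ‖e‖ = 1) {γ : ℝ → E3} {v : E3} {t : ℝ}
    (h : HasDerivAt γ v t) (h0 : γ t ≠ 0) :
    ∃ D : ℝ, HasDerivAt (fun s => coordSq e (γ s)) D t ∧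
      D ^ 2 ≤ 4 * (coordSq e (γ t) * (1 - coordSq e (γ t))) * fsSpeed (γ t) v ^ 2 := by
  set z := γ t with hz
  have hn : 0 < ‖z‖ := norm_pos_iff.2 h0
  have h1 : HasDerivAt (fun s => inner ℂ e (γ s)) (inner ℂ e v) t := by
    simpa using (hasDerivAt_const t e).inner ℂ h
  have h2 := h1.norm_sq
  have h3 : HasDerivAt (fun s => ‖γ s‖ ^ 2) (2 * (inner ℂ z v).re) t := by
    have h4 := h.inner ℂ h
    have h5 := Complex.reCLM.hasFDerivAt.comp_hasDerivAt t h4
    have e1 : (fun s => ‖γ s‖ ^ 2) = ⇑Complex.reCLM ∘ fun t => inner ℂ (γ t) (γ t) := by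
      ext s
      simp only [Function.comp, Complex.reCLM_apply]
      exact (inner_self_eq_norm_sq (𝕜 := ℂ) (γ s)).symm
    have e2 : 2 * (inner ℂ z v).re = Complex.reCLM (inner ℂ (γ t) v + inner ℂ v (γ t)) := by
      simp only [Complex.reCLM_apply, Complex.add_re]
      rw [← inner_conj_symm v z, Complex.conj_re]; ring
    rw [e1, e2]
    exact h5
  refine ⟨_, h2.div h3 (by positivity), ?_⟩
  set a := inner ℂ e z with ha
  set b := inner ℂ e v with hb
  set c := inner ℂ z v with hc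
  set n : ℝ := ‖z‖ ^ 2 with hnn
  have hn0 : 0 < n := by positivity
  let w : E3 := v - (c / n) • z
  have hew : inner ℂ e w = b - (c / n) * a := by
    simp only [w, inner_sub_right, inner_smul_right, ha, hb]
  have hw : ‖w‖ ^ 2 = ‖v‖ ^ 2 - ‖c‖ ^ 2 / n := by
    simp only [w]
    rw [@norm_sub_sq ℂ, inner_smul_right, norm_smul, mul_pow, ← hnn, ← inner_conj_symm v z, ← hc]
    have e1 : RCLike.re (c / n * (starRingEnd ℂ) c) = ‖c‖ ^ 2 / n := by
      rw [div_mul_eq_mul_div, Complex.mul_conj, Complex.normSq_eq_norm_sq]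
      norm_cast
    have e2 : ‖c / (n : ℂ)‖ = ‖c‖ / n := by
      rw [norm_div, Complex.norm_real, Real.norm_of_nonneg hn0.le]
    rw [e1, e2]
    field_simp
    ring
  have hsp : fsSpeed z v = ‖z‖ * ‖w‖ / n := by
    simp only [fsSpeed_def]
    rw [← hnn, ← hc]
    congr 1
    rw [Real.sqrt_eq_iff_mul_self_eq (by
      have : n * ‖v‖ ^ 2 - ‖c‖ ^ 2 = n * ‖w‖ ^ 2 := by rw [hw]; field_simp
      rw [this]; positivity) (by positivity)]
    have : ‖z‖ * ‖w‖ * (‖z‖ * ‖w‖) = n * ‖w‖ ^ 2 := by rw [hnn]; ring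
    rw [this, hw]; field_simp
  have hD : (2 * inner ℝ a b * n - ‖a‖ ^ 2 * (2 * c.re)) / n ^ 2 =
      2 * inner ℝ a (inner ℂ e w) / n := by
    rw [hew]
    simp only [Complex.inner, Complex.sq_norm, Complex.normSq_apply]
    simp only [Complex.mul_re, Complex.sub_re, Complex.sub_im, Complex.mul_im, Complex.conj_re,
      Complex.conj_im, Complex.div_ofReal_re, Complex.div_ofReal_im]
    field_simp
    ring
  have hzw : inner ℂ z w = 0 := by
    simp only [w, inner_sub_right, inner_smul_right, ← hc, inner_self_eq_norm_sq_to_K]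
    have : ((‖z‖ : ℂ)) ^ 2 = (n : ℂ) := by rw [hnn]; push_cast; rfl
    have hn1 : (n : ℂ) ≠ 0 := by exact_mod_cast hn0.ne'
    change c - c / n * (‖z‖ : ℂ) ^ 2 = 0
    rw [this]; field_simp; ring
  let e' : E3 := e - ((starRingEnd ℂ) a / n) • z
  have he' : inner ℂ e' w = inner ℂ e w := by
    simp only [e', inner_sub_left, inner_smul_left, hzw, mul_zero, sub_zero]
  have hne : ‖e'‖ ^ 2 = 1 - ‖a‖ ^ 2 / n := by
    simp only [e']
    rw [@norm_sub_sq ℂ, inner_smul_right, norm_smul, mul_pow, ← hnn, ← ha, he]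
    have e1 : RCLike.re ((starRingEnd ℂ) a / n * a) = ‖a‖ ^ 2 / n := by
      rw [div_mul_eq_mul_div, mul_comm, Complex.mul_conj, Complex.normSq_eq_norm_sq]
      norm_cast
    have e2 : ‖(starRingEnd ℂ) a / (n : ℂ)‖ = ‖a‖ / n := by
      rw [norm_div, Complex.norm_real, Real.norm_of_nonneg hn0.le, Complex.norm_conj]
    rw [e1, e2]
    field_simp
    ring
  have hu : coordSq e z = ‖a‖ ^ 2 / n := rfl
  have k1 : |inner ℝ a (inner ℂ e w)| ≤ ‖a‖ * (‖e'‖ * ‖w‖) := by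
    refine (abs_real_inner_le_norm _ _).trans ?_
    rw [← he']
    gcongr
    exact norm_inner_le_norm _ _
  have k2 : (inner ℝ a (inner ℂ e w)) ^ 2 ≤ ‖a‖ ^ 2 * ((1 - ‖a‖ ^ 2 / n) * ‖w‖ ^ 2) := by
    rw [← hne, ← mul_pow, ← mul_pow, ← sq_abs]
    gcongr
  rw [hD, hsp, hu]
  calc (2 * inner ℝ a (inner ℂ e w) / n) ^ 2 = 4 / n ^ 2 * (inner ℝ a (inner ℂ e w)) ^ 2 := by ring
    _ ≤ 4 / n ^ 2 * (‖a‖ ^ 2 * ((1 - ‖a‖ ^ 2 / n) * ‖w‖ ^ 2)) := by gcongr
    _ = _ := by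
      rw [div_pow, mul_pow, ← hnn]
      field_simp

lemma low_le_one {e : E3} (he : ‖e‖ = 1) (z : E3) : coordSq e z ≤ 1 := by
  unfold coordSq
  refine div_le_one_of_le₀ ?_ (by positivity)
  have := norm_inner_le_norm (𝕜 := ℂ) e z
  rw [he, one_mul] at this
  gcongr

lemma low_lip_r {F : MvPolynomial (Fin 3) ℂ} {e : E3} (he : ‖e‖ = 1) {r : ℝ} (hr0 : 0 ≤ r)
    (hr : r < 1) (x y : E3) :
    ENNReal.ofReal |Real.arcsin (r * (2 * coordSq e x - 1)) / 2 -
      Real.arcsin (r * (2 * coordSq e y - 1)) / 2| ≤ intrinsicDist F x y := by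
  have hb : ∀ z, |r * (2 * coordSq e z - 1)| < 1 := fun z => by
    have h1 := coordSq_nonneg e z
    have h2 := low_le_one he z
    rw [abs_lt]; constructor <;> nlinarith
  refine le_dist_of_arc (fun x y => ENNReal.ofReal |Real.arcsin (r * (2 * coordSq e x - 1)) / 2 -
      Real.arcsin (r * (2 * coordSq e y - 1)) / 2|)
    (fun x y x' y' hx hy => by rw [coordSq_congr e hx, coordSq_congr e hy]) (fun γ hγ => ?_)
    (fun x y z _ => ?_) x y
  · have hne : ∀ t ∈ Icc (0 : ℝ) 1, γ t ≠ 0 := fun t ht => (hγ.2 t ht).1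
    have hγ1 : ContDiffOn ℝ 1 γ (Icc 0 1) := hγ.1.of_le (by simp)
    have hcd : ContDiffOn ℝ 1 (fun s => coordSq e (γ s)) (Icc 0 1) := by
      unfold coordSq
      refine ContDiffOn.div ((contDiffOn_const.inner ℂ hγ1).norm_sq ℂ) (hγ1.norm_sq ℂ) ?_
      intro t ht
      exact pow_ne_zero _ (norm_ne_zero_iff.2 (hne t ht))
    have hcd2 : ContDiffOn ℝ 1 (fun s => Real.arcsin (r * (2 * coordSq e (γ s) - 1)) / 2)
        (Icc 0 1) := by
      refine ContDiffOn.div_const (fun t ht => ?_) 2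
      have h1 := abs_lt.1 (hb (γ t))
      exact ContDiffAt.comp_contDiffWithinAt (g := Real.arcsin)
        (f := fun s => r * (2 * coordSq e (γ s) - 1)) t (Real.contDiffAt_arcsin h1.1.ne' h1.2.ne)
        (contDiffWithinAt_const.mul ((contDiffWithinAt_const.mul (hcd t ht)).sub
          contDiffWithinAt_const))
    have h1 := enorm_sub_le_lintegral_deriv_of_contDiffOn_Icc hcd2 zero_le_one
    rw [Real.enorm_eq_ofReal_abs, abs_sub_comm] at h1
    refine h1.trans ?_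
    unfold arcLength
    apply lintegral_mono_ae
    rw [← Measure.restrict_congr_set Ioo_ae_eq_Icc]
    filter_upwards [self_mem_ae_restrict measurableSet_Ioo] with t ht
    have hd : HasDerivAt γ (deriv γ t) t :=
      (((hγ1 t ⟨ht.1.le, ht.2.le⟩).contDiffAt (Icc_mem_nhds ht.1 ht.2)).differentiableAt
        one_ne_zero).hasDerivAt
    obtain ⟨D, hD, hD2⟩ := low_deriv he hd (hne t ⟨ht.1.le, ht.2.le⟩)
    have h2 := abs_lt.1 (hb (γ t))
    have h3 : HasDerivAt (fun s => Real.arcsin (r * (2 * coordSq e (γ s) - 1)) / 2)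
        (1 / √(1 - (r * (2 * coordSq e (γ t) - 1)) ^ 2) * (r * (2 * D)) / 2) t :=
      (HasDerivAt.comp (h₂ := Real.arcsin) (h := fun s => r * (2 * coordSq e (γ s) - 1)) t
        (Real.hasDerivAt_arcsin h2.1.ne' h2.2.ne)
        (((hD.const_mul 2).sub_const 1).const_mul r)).div_const 2
    rw [h3.deriv, Real.enorm_eq_ofReal_abs]
    apply ENNReal.ofReal_le_ofReal
    have h4 : 0 < 1 - (r * (2 * coordSq e (γ t) - 1)) ^ 2 := by nlinarith
    refine abs_le_of_sq_le_sq' ?_ (fsSpeed_nonneg _ _) |> abs_le.2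
    have h5 : (1 / √(1 - (r * (2 * coordSq e (γ t) - 1)) ^ 2) * (r * (2 * D)) / 2) ^ 2 =
        r ^ 2 * D ^ 2 / (1 - (r * (2 * coordSq e (γ t) - 1)) ^ 2) := by
      rw [div_pow, mul_pow, div_pow, Real.sq_sqrt h4.le]
      field_simp
    rw [h5, div_le_iff₀ h4]
    have h6 : 0 ≤ (1 - r ^ 2) * fsSpeed (γ t) (deriv γ t) ^ 2 :=
      mul_nonneg (by nlinarith) (sq_nonneg _)
    nlinarith [mul_le_mul_of_nonneg_left hD2 (sq_nonneg r)]
  · rw [← ENNReal.ofReal_add (by positivity) (by positivity)]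
    exact ENNReal.ofReal_le_ofReal (abs_sub_le _ _ _)

/-- The angle attached to a squared coordinate. -/
noncomputable def lowAng (u : ℝ) : ℝ := Real.arcsin (2 * u - 1) / 2

lemma low_lip {F : MvPolynomial (Fin 3) ℂ} {e : E3} (he : ‖e‖ = 1) (x y : E3) :
    ENNReal.ofReal |lowAng (coordSq e x) - lowAng (coordSq e y)| ≤ intrinsicDist F x y := by
  have hc : Continuous (fun r : ℝ => ENNReal.ofReal |Real.arcsin (r * (2 * coordSq e x - 1)) / 2 -
      Real.arcsin (r * (2 * coordSq e y - 1)) / 2|) :=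
    ENNReal.continuous_ofReal.comp (by fun_prop)
  have h1 := (hc.tendsto 1).mono_left (nhdsWithin_le_nhds (s := Iio 1))
  simp only [one_mul] at h1
  refine le_of_tendsto h1 ?_
  filter_upwards [Ioo_mem_nhdsLT (zero_lt_one' ℝ)] with r hr
  exact low_lip_r he hr.1.le hr.2 x y

lemma lowAng_one : lowAng 1 = Real.pi / 4 := by
  rw [lowAng, (by norm_num : (2 : ℝ) * 1 - 1 = 1), Real.arcsin_one]; ring

lemma lowAng_sub (u : ℝ) : lowAng (1 - u) = -lowAng u := by
  rw [lowAng, lowAng, (by ring : 2 * (1 - u) - 1 = -(2 * u - 1)), Real.arcsin_neg]; ring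

lemma lowAng_zero : lowAng 0 = -(Real.pi / 4) := by
  rw [← lowAng_one, ← lowAng_sub, sub_self]

lemma low_unif {κ : ℝ} (hκ : 0 < κ) : ∃ η : ℝ, 0 < η ∧ η ≤ 1 ∧
    ∀ u ∈ Icc (0 : ℝ) 1, ∀ v ∈ Icc (0 : ℝ) 1, |u - v| ≤ 2 * η ^ 2 → |lowAng u - lowAng v| ≤ κ := by
  have hc : Continuous lowAng := by unfold lowAng; fun_prop
  obtain ⟨δ, hδ, h⟩ := Metric.uniformContinuousOn_iff.1
    (isCompact_Icc.uniformContinuousOn_of_continuous (hc.continuousOn (s := Icc (0 : ℝ) 1))) κ hκ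
  refine ⟨min 1 (δ / 3), by positivity, min_le_left _ _, fun u hu v hv huv => (h u hu v hv ?_).le⟩
  have h1 : min 1 (δ / 3) ≤ 1 := min_le_left _ _
  have h2 : min 1 (δ / 3) ≤ δ / 3 := min_le_right _ _
  have h3 : 0 < min 1 (δ / 3) := by positivity
  rw [Real.dist_eq]
  nlinarith

lemma low_levels {F : MvPolynomial (Fin 3) ℂ} {d : ℕ} {l : ℕ → ℝ} {t κ : ℝ} (hl : Antitone l)
    (hκ : ∀ u ∈ Icc (0 : ℝ) 1, ∀ v ∈ Icc (0 : ℝ) 1, |u - v| ≤ 2 * t → |lowAng u - lowAng v| ≤ κ)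
    (hκ1 : 2 * κ ≤ Real.pi / 2) (hl0 : ∀ k, 0 ≤ l k) (hl1 : l 1 ≤ t)
    (hlev : ∀ k, 1 ≤ k → k ≤ d → ∀ z ∈ cone F, coordSq (ee 2) z = l k →
      coordSq (ee (xi k)) z ≤ t)
    {y : E3} (hy : coordSq (ee 2) y = 0) (hy1 : 1 - t ≤ coordSq (ee (xi (d - 1))) y) (m : ℕ) :
    ∀ k x, 1 ≤ k → k + m + 1 = d → x ∈ cone F → coordSq (ee 2) x = l k →
      ENNReal.ofReal ((Real.pi / 2 - 2 * κ) * (m + 1)) ≤ intrinsicDist F x y := by
  have ht : 0 ≤ t := (hl0 1).trans hl1
  have hI : ∀ i z, coordSq (ee i) z ∈ Icc (0 : ℝ) 1 := fun i z =>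
    ⟨coordSq_nonneg _ _, low_le_one (norm_ee i) z⟩
  have hs : ∀ i x w, coordSq (ee i) x ≤ t → 1 - 2 * t ≤ coordSq (ee i) w →
      ENNReal.ofReal (Real.pi / 2 - 2 * κ) ≤ intrinsicDist F x w := by
    intro i x w h h'
    refine le_trans (ENNReal.ofReal_le_ofReal ?_) (low_lip (norm_ee i) x w)
    have a1 := (abs_le.1 (hκ _ (hI i x) 0 (by simp)
      (by rw [sub_zero, abs_of_nonneg (hI i x).1]; linarith))).2
    have a2 := (abs_le.1 (hκ 1 (by simp) _ (hI i w)
      (by rw [abs_of_nonneg (by linarith [(hI i w).2])]; linarith))).2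
    rw [lowAng_zero] at a1
    rw [lowAng_one] at a2
    have a3 := neg_le_abs (lowAng (coordSq (ee i) x) - lowAng (coordSq (ee i) w))
    linarith
  induction m with
  | zero =>
    intro k x hk hkd hx hxl
    obtain rfl : k = d - 1 := by omega
    simpa using hs _ x y (hlev _ hk (by omega) x hx hxl) (by linarith)
  | succ m ih =>
    intro k x hk hkd hx hxl
    refine le_trans ?_ (split_level (ee 2) (l (k + 1)) (x := x) (y := y)
      (by rw [hxl]; exact hl (by omega)) (by rw [hy]; exact hl0 _))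
    refine le_iInf₂ fun w hw => ?_
    have a2 := hlev (k + 1) (by omega) (by omega) w hw.1 hw.2
    have a4 := sum_coordSq_xi hw.1.1 k
    have a5 : coordSq (ee 2) w ≤ t := by rw [hw.2]; exact (hl (by omega)).trans hl1
    refine le_trans ?_ (add_le_add (hs _ x w (hlev k hk (by omega) x hx hxl) (by linarith))
      (ih (k + 1) w (by omega) (by omega) hw.1 hw.2))
    rw [← ENNReal.ofReal_add (by linarith) (mul_nonneg (by linarith) (by positivity))]
    apply ENNReal.ofReal_le_ofReal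
    push_cast
    linarith

lemma low_pert {ε : ℝ} {d : ℕ} (hd : 1 ≤ d) {c : Fin 3 × Fin 2 → ℂ}
    (hc : ‖c‖ < ε ^ (d ^ 2 + 1) / 6) (z : E3) :
    ‖∑ p, c p * eval (fun i => z i) (pm d p)‖ ≤ ε ^ (d ^ 2 + 1) * ‖z‖ ^ d := by
  have hle : ∀ i, ‖z i‖ ≤ ‖z‖ := fun i => PiLp.norm_apply_le z i
  have h0 : 0 ≤ ε ^ (d ^ 2 + 1) / 6 := (norm_nonneg _).trans hc.le
  have h1 : ∀ p, ‖c p * eval (fun i => z i) (pm d p)‖ ≤ ε ^ (d ^ 2 + 1) / 6 * ‖z‖ ^ d := by
    intro p
    rw [norm_mul]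
    have a1 : ‖c p‖ ≤ ε ^ (d ^ 2 + 1) / 6 := (norm_le_pi_norm c p).trans hc.le
    have a2 : ‖eval (fun i => z i) (pm d p)‖ ≤ ‖z‖ ^ d := by
      simp only [pm, map_mul, map_pow, eval_X, norm_mul, norm_pow]
      calc ‖z p.1‖ * ‖z p.2.castSucc‖ ^ (d - 1) ≤ ‖z‖ * ‖z‖ ^ (d - 1) := by
            gcongr <;> exact hle _
        _ = ‖z‖ ^ d := by rw [← pow_succ', Nat.sub_add_cancel hd]
    gcongr
  refine (norm_sum_le _ _).trans ((Finset.sum_le_sum fun p _ => h1 p).trans (le_of_eq ?_))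
  simp only [Finset.sum_const, Finset.card_univ, Fintype.card_prod, Fintype.card_fin,
    nsmul_eq_mul]
  push_cast
  ring

lemma low_end {ε η : ℝ} (hε : 0 < ε) (hη : 0 < η) {d : ℕ} (hd : 1 ≤ d)
    (hεd : (d + 1) * ε ≤ η ^ d) {c : Fin 3 × Fin 2 → ℂ} (hc : ‖c‖ < ε ^ (d ^ 2 + 1) / 6)
    {z : E3} (hz : z ∈ cone (pert (zigzag ε d) d c)) (h3 : z 2 = 0) :
    coordSq (ee (xi d)) z ≤ η ^ 2 := by
  have hN : 0 < ‖z‖ := norm_pos_iff.2 hz.1
  have hP := low_pert hd hc z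
  have h0 := hz.2
  rw [eval_pert, add_eq_zero_iff_eq_neg] at h0
  have hZ : eval (fun i => z i) (zigzag ε d) = (ε : ℂ) ^ (d ^ 2) * z (xi d) ^ d := by
    simp only [zigzag, map_sum]
    rw [Finset.sum_eq_single d]
    · simp
    · intro k hk hkd
      have : d - k ≠ 0 := by have := (Finset.mem_Icc.1 hk).2; omega
      simp [h3, this]
    · intro h; exact absurd (Finset.mem_Icc.2 ⟨hd, le_rfl⟩) h
  rw [← norm_neg, ← h0, hZ, norm_mul, norm_pow, norm_pow, Complex.norm_real,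
    Real.norm_of_nonneg hε.le, pow_succ ε, mul_assoc] at hP
  have h1 := le_of_mul_le_mul_left hP (by positivity)
  have h2 : ‖z (xi d)‖ ^ d ≤ (η * ‖z‖) ^ d := by
    refine h1.trans ?_
    rw [mul_pow]
    gcongr
    nlinarith [Nat.cast_nonneg (α := ℝ) d]
  have h4 := (pow_le_pow_iff_left₀ (norm_nonneg _) (by positivity) (by omega)).1 h2
  rw [coordSq_ee, div_le_iff₀ (by positivity), ← mul_pow]
  gcongr

lemma low_level {ε η : ℝ} (hε : 0 < ε) (hη : 0 < η) (hη1 : η ≤ 1) {d : ℕ}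
    (hεd : (d + 1) * ε ≤ η ^ d)
    {c : Fin 3 × Fin 2 → ℂ} (hc : ‖c‖ < ε ^ (d ^ 2 + 1) / 6) {k : ℕ} (hk : 1 ≤ k) (hkd : k ≤ d)
    {z : E3} (hz : z ∈ cone (pert (zigzag ε d) d c)) (hl : coordSq (ee 2) z = ε ^ (4 * k)) :
    coordSq (ee (xi k)) z ≤ η ^ 2 := by
  by_contra hcon
  push Not at hcon
  have hN : 0 < ‖z‖ := norm_pos_iff.2 hz.1
  set N := ‖z‖ with hNdef
  have hε1 : ε ≤ 1 := by
    have h1 : η ^ d ≤ 1 := pow_le_one₀ hη.le hη1
    nlinarith [Nat.cast_nonneg (α := ℝ) d]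
  have h3 : ‖z 2‖ = ε ^ (2 * k) * N := by
    rw [coordSq_ee, div_eq_iff (by positivity)] at hl
    refine (pow_left_inj₀ (norm_nonneg _) (by positivity) two_ne_zero).1 ?_
    rw [hl]; ring
  have hk4 : η * N ≤ ‖z (xi k)‖ := by
    rw [coordSq_ee, lt_div_iff₀ (by positivity)] at hcon
    refine (pow_le_pow_iff_left₀ (by positivity) (norm_nonneg _) two_ne_zero).1 ?_
    rw [mul_pow]
    exact hcon.le
  have hle : ∀ i, ‖z i‖ ≤ N := fun i => PiLp.norm_apply_le z i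
  set A := k ^ 2 + 2 * k * (d - k) with hA
  let T : ℕ → ℂ := fun j => (ε : ℂ) ^ (j ^ 2) * (z (xi j) ^ j * z 2 ^ (d - j))
  have hT : ∀ j, ‖T j‖ = ε ^ (j ^ 2) * (‖z (xi j)‖ ^ j * (ε ^ (2 * k) * N) ^ (d - j)) := by
    intro j
    simp only [T, norm_mul, norm_pow, h3, Complex.norm_real, Real.norm_of_nonneg hε.le]
  have hTk : ε ^ A * N ^ d * η ^ d ≤ ‖T k‖ := by
    rw [hT]
    calc ε ^ A * N ^ d * η ^ d ≤ ε ^ A * N ^ d * η ^ k := by
          gcongr ?_ * ?_
          exact pow_le_pow_of_le_one hη.le hη1 hkd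
      _ = ε ^ (k ^ 2) * ((η * N) ^ k * (ε ^ (2 * k) * N) ^ (d - k)) := by
          rw [hA, pow_add, mul_pow, mul_pow, ← pow_mul]
          have : N ^ d = N ^ k * N ^ (d - k) := by rw [← pow_add, Nat.add_sub_cancel' hkd]
          rw [this]; ring
      _ ≤ _ := by gcongr
  have hTj : ∀ j ∈ (Finset.Icc 1 d).erase k, ‖T j‖ ≤ ε ^ (A + 1) * N ^ d := by
    intro j hj
    have hjk := Finset.ne_of_mem_erase hj
    have hjd := (Finset.mem_Icc.1 (Finset.mem_of_mem_erase hj)).2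
    rw [hT]
    have hexp : A + 1 ≤ j ^ 2 + 2 * k * (d - j) := by
      rw [hA]
      zify [hkd, hjd]
      have : (j : ℤ) - k ≠ 0 := sub_ne_zero.2 (by exact_mod_cast hjk)
      nlinarith [Int.one_le_abs this, sq_abs ((j : ℤ) - k), abs_nonneg ((j : ℤ) - k)]
    calc ε ^ (j ^ 2) * (‖z (xi j)‖ ^ j * (ε ^ (2 * k) * N) ^ (d - j))
        ≤ ε ^ (j ^ 2) * (N ^ j * (ε ^ (2 * k) * N) ^ (d - j)) := by gcongr; exact hle _
      _ = ε ^ (j ^ 2 + 2 * k * (d - j)) * N ^ d := by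
          rw [pow_add, mul_pow, ← pow_mul]
          have : N ^ d = N ^ j * N ^ (d - j) := by rw [← pow_add, Nat.add_sub_cancel' hjd]
          rw [this]; ring
      _ ≤ ε ^ (A + 1) * N ^ d := by
          gcongr ?_ * _
          exact pow_le_pow_of_le_one hε.le hε1 hexp
  have hP : ‖∑ p, c p * eval (fun i => z i) (pm d p)‖ ≤ ε ^ (A + 1) * N ^ d := by
    refine (low_pert (by omega) hc z).trans ?_
    have hexp : A + 1 ≤ d ^ 2 + 1 := by
      rw [hA]
      zify [hkd]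
      nlinarith [sq_nonneg ((d : ℤ) - k)]
    have := pow_le_pow_of_le_one hε.le hε1 hexp
    gcongr
  have h0 := hz.2
  rw [eval_pert] at h0
  have hZ : eval (fun i => z i) (zigzag ε d) = T k + ∑ j ∈ (Finset.Icc 1 d).erase k, T j := by
    rw [Finset.add_sum_erase _ _ (Finset.mem_Icc.2 ⟨hk, hkd⟩)]
    simp [zigzag, T]
  rw [hZ, add_assoc, add_eq_zero_iff_eq_neg] at h0
  have hS : ‖∑ j ∈ (Finset.Icc 1 d).erase k, T j‖ ≤ (d - 1 : ℝ) * (ε ^ (A + 1) * N ^ d) := by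
    refine (norm_sum_le _ _).trans ((Finset.sum_le_sum hTj).trans (le_of_eq ?_))
    rw [Finset.sum_const, Finset.card_erase_of_mem (Finset.mem_Icc.2 ⟨hk, hkd⟩), Nat.card_Icc,
      nsmul_eq_mul, Nat.cast_sub (by omega)]
    simp
  have hfin : ‖T k‖ ≤ d * (ε ^ (A + 1) * N ^ d) := by
    rw [h0, norm_neg]
    refine (norm_add_le _ _).trans ?_
    linarith
  have hpos : 0 < ε ^ A * N ^ d := by positivity
  have := hTk.trans hfin
  rw [pow_succ] at this
  nlinarith [mul_pos hpos hε, mul_le_mul_of_nonneg_left hεd hpos.le]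

lemma low_smooth {ε : ℝ} (hε : 0 < ε) {d : ℕ} (hd : 2 ≤ d) {c : Fin 3 × Fin 2 → ℂ} (hcε : ‖c‖ < ε)
    (hc : ∀ j, c ∉ badSet (zigzag ε d) d j) : IsSmoothCurve d (pert (zigzag ε d) d c) := by
  rcases hd.lt_or_eq with hd3 | rfl
  · exact smooth_pert hε hd3 hc
  have hom := pert_hom (by omega) (zigzag_hom ε 2) c
  refine ⟨hom, fun z hz => ?_⟩
  by_contra hcon
  push Not at hcon
  by_cases h : ∃ j : Fin 2, z j.castSucc ≠ 0
  · obtain ⟨j, hj⟩ := h
    refine hc j ⟨fun i => ((z j.castSucc)⁻¹ • z) i, by simp [hj], ?_, fun i => ?_⟩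
    · exact (smul_mem_cone hom (inv_ne_zero hj) hz).2
    · have := ev_smul (hom.pderiv (i := i)) (z j.castSucc)⁻¹ z
      unfold ev at this
      rw [this, hcon i, mul_zero]
  · push Not at h
    have h3 : z 2 ≠ 0 := by
      intro h3
      apply hz.1
      ext i
      fin_cases i
      · exact h 0
      · exact h 1
      · exact h3
    have h1 := hcon 1
    rw [eval_pderiv_pert] at h1
    have e1 : ∑ p, c p * eval (fun i => z i) (pderiv 1 (pm 2 p)) = c (2, 1) * z 2 := by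
      have a0 : z 0 = 0 := h 0
      have a1 : z 1 = 0 := h 1
      simp [Fintype.sum_prod_type, Fin.sum_univ_succ, pm, pderiv_X, Pi.single_apply, a0, a1]
    have e2 : eval (fun i => z i) (pderiv 1 (zigzag ε 2)) = ε * z 2 := by
      have x1 : xi 1 = 1 := rfl
      have x2 : xi 2 = 0 := rfl
      have i2 : Finset.Icc 1 2 = {1, 2} := by decide
      simp [zigzag, i2, x1, x2, pderiv_X]
    rw [e1, e2, ← add_mul, mul_eq_zero, or_iff_left h3, add_eq_zero_iff_eq_neg] at h1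
    have h2 := (norm_le_pi_norm c (2, 1)).trans_lt hcε
    rw [← norm_neg, ← h1, Complex.norm_real, Real.norm_of_nonneg hε.le] at h2
    exact lt_irrefl _ h2

lemma low_large {d : ℕ} (hd : 2 ≤ d) {κ : ℝ} (hκ : 0 < κ) (hκ1 : 2 * κ ≤ Real.pi / 2) :
    ENNReal.ofReal ((Real.pi / 2 - 2 * κ) * d) ≤ maxDiam d := by
  obtain ⟨η, hη, hη1, hu⟩ := low_unif hκ
  set ε : ℝ := η ^ d / (d + 1) with hεdef
  have hε : 0 < ε := by positivity
  have hεd : (d + 1) * ε ≤ η ^ d := by rw [hεdef]; field_simp; rfl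
  have hε2 : ε ≤ η ^ 2 := by
    have := pow_le_pow_of_le_one hη.le hη1 hd
    nlinarith [Nat.cast_nonneg (α := ℝ) d]
  have hε1 : ε ≤ 1 := hε2.trans (pow_le_one₀ hη.le hη1)
  obtain ⟨c, hc1, hc2⟩ := exists_good_param (zigzag ε d) d (η := ε ^ (d ^ 2 + 1) / 6)
    (by positivity)
  have hF := low_smooth hε hd (hc1.trans_le (by
    have : ε ^ (d ^ 2 + 1) ≤ ε ^ 1 := pow_le_pow_of_le_one hε.le hε1 (by omega)
    rw [pow_one] at this
    linarith)) hc2
  set F := pert (zigzag ε d) d c with hFdef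
  have hx3 : ∀ k, (2 : Fin 3) ≠ xi k := fun k h => by
    have := congrArg Fin.val h; simp [xi] at this; omega
  obtain ⟨y, hy, hy0⟩ := exists_zero_on_line (by omega) hF.1 0 1 (by decide)
  have hy4 : y 2 = 0 := hy0 2 (by decide) (by decide)
  have hy3 : coordSq (ee 2) y = 0 := by rw [coordSq_ee, hy4]; simp
  have hy1 : 1 - η ^ 2 ≤ coordSq (ee (xi (d - 1))) y := by
    have a1 := sum_coordSq_xi hy.1 (d - 1)
    have a2 := low_end hε hη (by omega) hεd hc1 hy hy4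
    rw [Nat.sub_add_cancel (by omega), hy3] at a1
    linarith
  have hx : ee 2 ∈ cone F := by
    refine ⟨by rw [← norm_ne_zero_iff, norm_ee]; exact one_ne_zero, ?_⟩
    rw [hFdef, eval_pert]
    have e1 : ∀ p, eval (fun i => ee 2 i) (pm d p) = 0 := by
      intro p
      have a1 : d - 1 ≠ 0 := by omega
      have a2 : p.2.castSucc ≠ 2 := Fin.castSucc_ne_last p.2
      simp [pm, ee, a1, a2]
    have e2 : eval (fun i => ee 2 i) (zigzag ε d) = 0 := by
      simp only [zigzag, map_sum]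
      refine Finset.sum_eq_zero fun k hk => ?_
      have a1 : k ≠ 0 := by have := (Finset.mem_Icc.1 hk).1; omega
      simp [ee, a1, (hx3 k).symm]
    simp [e1, e2]
  have hanti : Antitone fun k : ℕ => ε ^ (4 * k) := fun a b hab =>
    pow_le_pow_of_le_one hε.le hε1 (by omega)
  have hl1 : ε ^ (4 * 1) ≤ η ^ 2 := by
    have : ε ^ (4 * 1) ≤ ε ^ 1 := pow_le_pow_of_le_one hε.le hε1 (by omega)
    rw [pow_one] at this
    linarith
  have key := low_levels (F := F) (d := d) hanti hu hκ1 (fun k => by positivity) hl1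
    (fun k hk hkd z hz hl => low_level hε hη hη1 hεd hc1 hk hkd hz hl) hy3 hy1 (d - 2)
  have hx1 : coordSq (ee 2) (ee 2) = 1 := by
    rw [coordSq_ee, norm_ee]
    simp [ee]
  refine le_trans ?_ (le_maxDiam hF hx hy)
  refine le_trans ?_ (split_level (ee 2) (ε ^ (4 * 1)) (x := ee 2) (y := y)
    (by rw [hx1]; exact pow_le_one₀ hε.le hε1) (by rw [hy3]; positivity))
  refine le_iInf₂ fun w hw => le_trans ?_ (add_le_add (low_lip (norm_ee 2) (ee 2) w)
    (key 1 w le_rfl (by omega) hw.1 hw.2))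
  rw [← ENNReal.ofReal_add (by positivity) (mul_nonneg (by linarith) (by positivity))]
  apply ENNReal.ofReal_le_ofReal
  have a1 := (abs_le.1 (hu (ε ^ (4 * 1)) ⟨by positivity, pow_le_one₀ hε.le hε1⟩ 0 (by simp)
    (by rw [sub_zero, abs_of_nonneg (by positivity)]; nlinarith [sq_nonneg η]))).2
  have a2 := le_abs_self (lowAng 1 - lowAng (ε ^ (4 * 1)))
  rw [hx1, hw.2, Nat.cast_sub hd, Nat.cast_two]
  rw [lowAng_zero] at a1
  rw [lowAng_one] at a2 ⊢
  linarith

lemma low_small : ENNReal.ofReal (Real.pi / 2) ≤ maxDiam 1 := by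
  have hF : IsSmoothCurve 1 (X 1 : MvPolynomial (Fin 3) ℂ) :=
    ⟨isHomogeneous_X ℂ 1, fun z _ => ⟨1, by simp⟩⟩
  have hne : ∀ i, ee i ≠ 0 := fun i => by rw [← norm_ne_zero_iff, norm_ee]; exact one_ne_zero
  refine le_trans ?_ (le_maxDiam hF (x := ee 0) (y := ee 2) ⟨hne 0, by simp [ee]⟩
    ⟨hne 2, by simp [ee]⟩)
  refine le_trans (ENNReal.ofReal_le_ofReal ?_) (low_lip (norm_ee 0) _ _)
  have a1 : coordSq (ee 0) (ee 0) = 1 := by rw [coordSq_ee, norm_ee]; simp [ee]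
  have a2 : coordSq (ee 0) (ee 2) = 0 := by rw [coordSq_ee]; simp [ee]
  rw [a1, a2, lowAng_one, lowAng_zero]
  linarith [le_abs_self (Real.pi / 4 - -(Real.pi / 4))]

theorem lower_sharp {d : ℕ} (hd : 1 ≤ d) : ENNReal.ofReal (Real.pi / 2 * d) ≤ maxDiam d := by
  rcases hd.lt_or_eq with h | rfl
  · have hc : Continuous (fun κ : ℝ => ENNReal.ofReal ((Real.pi / 2 - 2 * κ) * d)) :=
      ENNReal.continuous_ofReal.comp (by fun_prop)
    have h1 := (hc.tendsto 0).mono_left (nhdsWithin_le_nhds (s := Ioi 0))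
    simp only [mul_zero, sub_zero] at h1
    refine le_of_tendsto h1 ?_
    filter_upwards [Ioo_mem_nhdsGT (show (0 : ℝ) < Real.pi / 6 by positivity)] with κ hκ
    exact low_large h hκ.1 (by linarith [hκ.2, Real.pi_pos])
  · simpa using low_small

end Pool.Agent.P.MP_a3b544_ag.PC
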